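import Pool.Agent.H89M5.Stm

set_option autoImplicit false

/-!
Project M5, stub AL.
-/

namespace Pool.Agent.H89M5.AL

open Module Pool.Agent.W622.ETG

theorem fin : ∀ e0 l m : P3, dt l e0 = 1 → dt m e0 = 1 → l ≠ m →
    ∃ e : P3, dt l e0 * dt l e = 1 ∧ dt m e0 * dt m e = 1 ∧ ∀ k : P3, k ≠ l → k ≠ m → dt k e0 * dt k e = 0 := by
  decide +kernel

theorem t : S_AL := by
  intro V _ _ y e0 hR l m hl hm
  by_cases hlm : l = m
  · rw [hlm]
  obtain ⟨e, h1, h2, h3⟩ := fin e0 l m hl hm hlm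
  have h := hR e
  rw [Finset.sum_eq_add l m hlm (fun k _ hk => by rw [h3 k hk.1 hk.2, zero_smul])
    (fun h => absurd (Finset.mem_univ _) h) (fun h => absurd (Finset.mem_univ _) h), h1, h2, one_smul, one_smul] at h
  exact Pool.Agent.H89FL.aez.1 h

end Pool.Agent.H89M5.AL
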