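import Pool.Agent.H89M5.Stm

set_option autoImplicit false
set_option linter.unusedSectionVars false

/-!
Project M5: a relation of the second type gives also one of the first type.
-/

namespace Pool.Agent.H89M5.BETA

open Module Pool.Agent.W622.ETG Pool.Agent.H89M5

/-- the functional with the coordinates `t` -/
def ph (l1 l2 l0 t : P3) : P3 := t.1 • l1 + t.2.1 • l2 + t.2.2 • l0

/-- the coordinates of a functional -/
def cr (e1 e2 e3 l : P3) : P3 := (dt l e1, dt l e2, dt l e3)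

/-- dual bases -/
structure Bs (l1 l2 l0 e1 e2 e3 : P3) : Prop where
  co : ∀ t : P3, cr e1 e2 e3 (ph l1 l2 l0 t) = t
  oc : ∀ l : P3, ph l1 l2 l0 (cr e1 e2 e3 l) = l

theorem bs (l0 : P3) (h : l0 ≠ 0) : ∃ l1 l2 e1 e2 e3 : P3, Bs l1 l2 l0 e1 e2 e3 := by
  have key : ∀ l0 : P3, l0 ≠ 0 → l0 = (1, 0, 0) ∨ l0 = (0, 1, 0) ∨ l0 = (0, 0, 1) ∨ l0 = (1, 1, 0) ∨
      l0 = (1, 0, 1) ∨ l0 = (0, 1, 1) ∨ l0 = (1, 1, 1) := by decide
  rcases key l0 h with rfl | rfl | rfl | rfl | rfl | rfl | rfl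
  · exact ⟨(0, 1, 0), (0, 0, 1), (0, 1, 0), (0, 0, 1), (1, 0, 0), ⟨by decide, by decide⟩⟩
  · exact ⟨(1, 0, 0), (0, 0, 1), (1, 0, 0), (0, 0, 1), (0, 1, 0), ⟨by decide, by decide⟩⟩
  · exact ⟨(1, 0, 0), (0, 1, 0), (1, 0, 0), (0, 1, 0), (0, 0, 1), ⟨by decide, by decide⟩⟩
  · exact ⟨(0, 1, 0), (0, 0, 1), (1, 1, 0), (0, 0, 1), (1, 0, 0), ⟨by decide, by decide⟩⟩
  · exact ⟨(0, 1, 0), (0, 0, 1), (0, 1, 0), (1, 0, 1), (1, 0, 0), ⟨by decide, by decide⟩⟩
  · exact ⟨(1, 0, 0), (0, 0, 1), (1, 0, 0), (0, 1, 1), (0, 1, 0), ⟨by decide, by decide⟩⟩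
  · exact ⟨(0, 1, 0), (0, 0, 1), (1, 1, 0), (1, 0, 1), (1, 0, 0), ⟨by decide, by decide⟩⟩

theorem sumP3 {M : Type} [AddCommMonoid M] (f : P3 → M) : ∑ l, f l =
    f (0, 0, 0) + (f (0, 0, 1) + (f (0, 1, 0) + (f (0, 1, 1) + (f (1, 0, 0) + (f (1, 0, 1) +
      (f (1, 1, 0) + f (1, 1, 1))))))) := by
  have h : (Finset.univ : Finset P3) = {(0, 0, 0), (0, 0, 1), (0, 1, 0), (0, 1, 1), (1, 0, 0),
      (1, 0, 1), (1, 1, 0), (1, 1, 1)} := by decide
  rw [h, Finset.sum_insert (by decide), Finset.sum_insert (by decide), Finset.sum_insert (by decide),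
    Finset.sum_insert (by decide), Finset.sum_insert (by decide), Finset.sum_insert (by decide),
    Finset.sum_insert (by decide), Finset.sum_singleton]

theorem sumE {M : Type} [AddCommMonoid M] {l1 l2 l0 e1 e2 e3 : P3} (hB : Bs l1 l2 l0 e1 e2 e3)
    (f : P3 → M) : ∑ l, f l = ∑ t, f (ph l1 l2 l0 t) := by
  let E : P3 ≃ P3 := ⟨ph l1 l2 l0, cr e1 e2 e3, hB.co, hB.oc⟩
  exact (Equiv.sum_comp E f).symm

/-- coefficients of the relation of the second type -/
def gam (t : P3) : ZMod 2 := if t = 0 then 0 else if t = (0, 0, 1) then 0 else 1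

/-- coefficients of the new relation -/
def gg (k : Fin 5 → ZMod 2) (t : P3) : ZMod 2 :=
  if t = (0, 1, 0) then k 0 else if t = (1, 0, 0) then k 1 else if t = (1, 1, 0) then k 2 else
    if t = (0, 1, 1) then k 3 else if t = (1, 0, 1) then k 4 else
      if t = (0, 0, 1) then k 0 + k 1 + k 2 + k 3 + k 4 else 0

theorem gg000 (k : Fin 5 → ZMod 2) : gg k (0, 0, 0) = 0 := by
  unfold gg
  rw [if_neg (by decide), if_neg (by decide), if_neg (by decide), if_neg (by decide),
    if_neg (by decide), if_neg (by decide)]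

theorem gg111 (k : Fin 5 → ZMod 2) : gg k (1, 1, 1) = 0 := by
  unfold gg
  rw [if_neg (by decide), if_neg (by decide), if_neg (by decide), if_neg (by decide),
    if_neg (by decide), if_neg (by decide)]

theorem gg010 (k : Fin 5 → ZMod 2) : gg k (0, 1, 0) = k 0 := by
  unfold gg
  rw [if_pos rfl]

theorem gg100 (k : Fin 5 → ZMod 2) : gg k (1, 0, 0) = k 1 := by
  unfold gg
  rw [if_neg (by decide), if_pos rfl]

theorem gg110 (k : Fin 5 → ZMod 2) : gg k (1, 1, 0) = k 2 := by
  unfold gg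
  rw [if_neg (by decide), if_neg (by decide), if_pos rfl]

theorem gg011 (k : Fin 5 → ZMod 2) : gg k (0, 1, 1) = k 3 := by
  unfold gg
  rw [if_neg (by decide), if_neg (by decide), if_neg (by decide), if_pos rfl]

theorem gg101 (k : Fin 5 → ZMod 2) : gg k (1, 0, 1) = k 4 := by
  unfold gg
  rw [if_neg (by decide), if_neg (by decide), if_neg (by decide), if_neg (by decide), if_pos rfl]

theorem gg001 (k : Fin 5 → ZMod 2) : gg k (0, 0, 1) = k 0 + k 1 + k 2 + k 3 + k 4 := by
  unfold gg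
  rw [if_neg (by decide), if_neg (by decide), if_neg (by decide), if_neg (by decide),
    if_neg (by decide), if_pos rfl]

theorem sum_even {M : Type} [AddCommGroup M] [Module (ZMod 2) M] (x : M) : x + x = 0 := vadd x

theorem t : Pool.Agent.H89M5.S_BETA := by
  intro hSP hCLS V _ _ _ A v0 v1 v2 y hL hC hdim c hc0 hR l0 hl0 hc
  obtain ⟨l1, l2, e1, e2, e3, hB⟩ := bs l0 hl0
  have d1 : ∀ s, dt (ph l1 l2 l0 s) e1 = s.1 := fun s => congrArg Prod.fst (hB.co s)
  have d2 : ∀ s, dt (ph l1 l2 l0 s) e2 = s.2.1 := fun s => congrArg (fun z => z.2.1) (hB.co s)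
  have d3 : ∀ s, dt (ph l1 l2 l0 s) e3 = s.2.2 := fun s => congrArg (fun z => z.2.2) (hB.co s)
  have p0 : ph l1 l2 l0 0 = 0 := by simp [ph]
  have pl0 : ph l1 l2 l0 (0, 0, 1) = l0 := by simp [ph]
  have pinj : Function.Injective (ph l1 l2 l0) := Function.LeftInverse.injective hB.co
  have pne : ∀ s : P3, s ≠ 0 → ph l1 l2 l0 s ≠ 0 := fun s hs h => hs (pinj (h.trans p0.symm))
  have hcp : ∀ s, c (ph l1 l2 l0 s) = gam s := by
    intro s
    unfold gam
    split_ifs with h1 h2
    · rw [h1, p0, hc0]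
    · rw [h2, pl0, hc l0 hl0, if_pos rfl]
    · rw [hc _ (pne s h1), if_neg]
      intro h3
      exact h2 (pinj (h3.trans pl0.symm))
  set Y : P3 → Dl V := fun s => y (ph l1 l2 l0 s) with hY
  have hYne : ∀ s : P3, s ≠ 0 → Y s ≠ 0 := by
    intro s hs h0
    obtain ⟨e, he⟩ := hC.bad _ (pne s hs) 0 A.zero_mem
    apply he
    change (0 : Frm V) (io v0 v1 v2 e) = dt (ph l1 l2 l0 s) e • Y s
    rw [h0, smul_zero]
    rfl
  have rel : ∀ (c' : P3 → ZMod 2) (g : P3 → ZMod 2), (∀ s, c' (ph l1 l2 l0 s) = g s) →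
      ∀ e, ∑ l, (c' l * dt l e) • y l = ∑ s, (g s * dt (ph l1 l2 l0 s) e) • Y s := by
    intro c' g hg e
    rw [sumE hB]
    exact Finset.sum_congr rfl fun s _ => by rw [hg s]
  have R1 : Y (1, 0, 0) + (Y (1, 0, 1) + (Y (1, 1, 0) + Y (1, 1, 1))) = 0 := by
    have := hR e1
    rw [rel c gam hcp e1, sumP3] at this
    simp only [d1] at this
    have q1 : gam (1, 0, 0) = 1 := by decide
    have q2 : gam (1, 0, 1) = 1 := by decide
    have q3 : gam (1, 1, 0) = 1 := by decide
    have q4 : gam (1, 1, 1) = 1 := by decide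
    rw [q1, q2, q3, q4] at this
    simpa using this
  have R2 : Y (0, 1, 0) + (Y (0, 1, 1) + (Y (1, 1, 0) + Y (1, 1, 1))) = 0 := by
    have := hR e2
    rw [rel c gam hcp e2, sumP3] at this
    simp only [d2] at this
    have q1 : gam (0, 1, 0) = 1 := by decide
    have q2 : gam (0, 1, 1) = 1 := by decide
    have q3 : gam (1, 1, 0) = 1 := by decide
    have q4 : gam (1, 1, 1) = 1 := by decide
    rw [q1, q2, q3, q4] at this
    simpa using this
  have R3 : Y (0, 1, 1) + (Y (1, 0, 1) + Y (1, 1, 1)) = 0 := by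
    have := hR e3
    rw [rel c gam hcp e3, sumP3] at this
    simp only [d3] at this
    have q0 : gam (0, 0, 1) = 0 := by decide
    have q2 : gam (0, 1, 1) = 1 := by decide
    have q3 : gam (1, 0, 1) = 1 := by decide
    have q4 : gam (1, 1, 1) = 1 := by decide
    rw [q0, q2, q3, q4] at this
    simpa using this
  have n1 : Y (0, 1, 0) ≠ 0 := hYne _ (by decide)
  have n2 : Y (1, 0, 0) ≠ 0 := hYne _ (by decide)
  have n3 : Y (1, 1, 0) ≠ 0 := hYne _ (by decide)
  have n4 : Y (0, 1, 1) ≠ 0 := hYne _ (by decide)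
  have n5 : Y (1, 0, 1) ≠ 0 := hYne _ (by decide)
  have n6 : Y (1, 1, 1) ≠ 0 := hYne _ (by decide)
  have mem : ∀ s : P3, s ≠ 0 → ∃ ω ∈ A, ∀ e, ω (io v0 v1 v2 e) =
      dt (ph l1 l2 l0 s) e • Y s + dt l0 e • Y (0, 0, 1) := by
    intro s hs
    obtain ⟨ω, hω, h1⟩ := hC.mem _ l0 (pne s hs) hl0
    refine ⟨ω, hω, fun e => ?_⟩
    rw [h1 e]
    change _ = dt (ph l1 l2 l0 s) e • y (ph l1 l2 l0 s) + dt l0 e • y (ph l1 l2 l0 (0, 0, 1))
    rw [pl0]
  obtain ⟨F1, hF1, f1⟩ := mem (0, 1, 0) (by decide)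
  obtain ⟨F2, hF2, f2⟩ := mem (1, 0, 0) (by decide)
  obtain ⟨F3, hF3, f3⟩ := mem (1, 1, 0) (by decide)
  obtain ⟨G1, hG1, g1⟩ := mem (0, 1, 1) (by decide)
  obtain ⟨G2, hG2, g2⟩ := mem (1, 0, 1) (by decide)
  let b : Fin 5 → Dl V × Dl V × Dl V := fun i => rE v0 v1 v2 ((![F1, F2, F3, G1, G2] : Fin 5 → Frm V) i)
  have hb : ∀ i, b i ∈ A.map (rE v0 v1 v2) := by
    intro i
    refine Submodule.mem_map_of_mem ?_
    fin_cases i
    exacts [hF1, hF2, hF3, hG1, hG2]
  have hcomb : ∀ (k : Fin 5 → ZMod 2) (ζ : Frm V), rE v0 v1 v2 ζ = ∑ i, k i • b i → ∀ e,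
      ζ (io v0 v1 v2 e) = k 0 • F1 (io v0 v1 v2 e) + k 1 • F2 (io v0 v1 v2 e) +
        k 2 • F3 (io v0 v1 v2 e) + k 3 • G1 (io v0 v1 v2 e) + k 4 • G2 (io v0 v1 v2 e) := by
    intro k ζ h e
    have h1 : rE v0 v1 v2 (ζ + (k 0 • F1 + k 1 • F2 + k 2 • F3 + k 3 • G1 + k 4 • G2)) = 0 := by
      rw [map_add, h, Fin.sum_univ_five]
      simp only [map_add, map_smul]
      exact vadd _
    have h2 : ∀ ξ : Frm V, rE v0 v1 v2 ξ = 0 → ξ (io v0 v1 v2 e) = 0 := by
      intro ξ hξ
      have a0 : ξ v0 = 0 := congrArg Prod.fst hξ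
      have a1 : ξ v1 = 0 := congrArg (fun z => z.2.1) hξ
      have a2 : ξ v2 = 0 := congrArg (fun z => z.2.2) hξ
      unfold io
      rw [map_add, map_add, map_smul, map_smul, map_smul, a0, a1, a2]
      simp
    have h3 := h2 _ h1
    rw [LinearMap.add_apply] at h3
    have h4 := Pool.Agent.H89FL.aez.1 h3
    rw [h4]
    rfl
  by_cases hind : ∀ k : Fin 5 → ZMod 2, ∑ i, k i • b i = 0 → k = 0
  · exfalso
    have hlink := hL F1 hF1 (G2 + F3) (A.add_mem hG2 hF3) (io v0 v1 v2 e2) (io v0 v1 v2 e1) (by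
      rw [LinearMap.add_apply, f1, f3, g2, d1, d1, d2]
      have q1 : dt l0 e2 = 0 := by rw [← pl0, d2]
      have q2 : dt l0 e1 = 0 := by rw [← pl0, d1]
      rw [q1, q2]
      simp only [one_smul, zero_smul, add_zero]
      have e := sum_even (Y (1, 0, 0))
      have e' := sum_even (Y (0, 1, 0))
      have e2 := sum_even (Y (1, 1, 1))
      have e3 := sum_even (Y (0, 1, 1))
      have e4 := sum_even (Y (1, 1, 0))
      have e5 := sum_even (Y (1, 0, 1))
      linear_combination (norm := module) R2 + R3 - e3 - e2 - e4 - e5)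
    obtain ⟨ζ, hζ, z1, z2⟩ := hlink
    obtain ⟨k, hk⟩ := hSP _ (A.map (rE v0 v1 v2)) inferInstance hdim b hb hind (rE v0 v1 v2 ζ)
      (Submodule.mem_map_of_mem hζ)
    have hk1 := hcomb k ζ hk e1
    have hk2 := hcomb k ζ hk e2
    have q1 : dt l0 e2 = 0 := by rw [← pl0, d2]
    have q2 : dt l0 e1 = 0 := by rw [← pl0, d1]
    rw [z2, f1, f1, f2, f3, g1, g2] at hk1
    rw [z1, f1, f2, f3, g1, g2] at hk2
    simp only [d1, d2, q1, q2, zero_smul, one_smul, add_zero, smul_zero, zero_add] at hk1 hk2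
    have m12 : Y (1, 0, 0) ≠ Y (0, 1, 0) := by
      intro h
      apply n6
      have a1 := sum_even (Y (0, 1, 0))
      have a2 := sum_even (Y (0, 1, 1))
      have a3 := sum_even (Y (1, 0, 1))
      have a4 := sum_even (Y (1, 1, 0))
      have a5 := sum_even (Y (1, 1, 1))
      linear_combination (norm := module) R1 + R2 + R3 - a2 - a3 - a4 - a5 - a1 - h
    have m13 : Y (1, 1, 0) ≠ Y (0, 1, 0) := by
      intro h
      apply n5
      have a1 := sum_even (Y (0, 1, 0))
      have a2 := sum_even (Y (0, 1, 1))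
      have a5 := sum_even (Y (1, 1, 1))
      linear_combination (norm := module) R2 + R3 - a2 - a5 - a1 - h
    have m23 : Y (1, 0, 0) ≠ Y (1, 1, 0) := by
      intro h
      apply n4
      have a1 := sum_even (Y (1, 1, 0))
      have a2 := sum_even (Y (1, 0, 1))
      have a5 := sum_even (Y (1, 1, 1))
      linear_combination (norm := module) R1 + R3 - a2 - a5 - a1 - h
    have y101 : Y (1, 0, 1) = Y (0, 1, 0) + Y (1, 1, 0) := by
      have a1 := sum_even (Y (0, 1, 0))
      have a2 := sum_even (Y (0, 1, 1))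
      have a4 := sum_even (Y (1, 1, 0))
      have a5 := sum_even (Y (1, 1, 1))
      linear_combination (norm := module) R2 + R3 - a2 - a5 - a1 - a4
    have y011 : Y (0, 1, 1) = Y (1, 0, 0) + Y (1, 1, 0) := by
      have a1 := sum_even (Y (1, 0, 0))
      have a2 := sum_even (Y (1, 0, 1))
      have a4 := sum_even (Y (1, 1, 0))
      have a5 := sum_even (Y (1, 1, 1))
      linear_combination (norm := module) R1 + R3 - a2 - a5 - a1 - a4
    have a3 := sum_even (Y (1, 1, 0))
    rw [y101] at hk1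
    rw [y011] at hk2
    rcases z01 (k 2) with w2 | w2
    · rcases z01 (k 1) with w1 | w1 <;> rcases z01 (k 4) with w4 | w4 <;>
        rw [w2, w1, w4] at hk1 <;> simp only [zero_smul, one_smul, zero_add, add_zero] at hk1
      · exact n1 hk1
      · exact n3 (by linear_combination (norm := module) -hk1)
      · exact m12 hk1.symm
      · exact m23 (Pool.Agent.H89FL.aez.1 (by linear_combination (norm := module) -hk1))
    · rcases z01 (k 0) with w0 | w0 <;> rcases z01 (k 3) with w3 | w3 <;>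
        rw [w2, w0, w3] at hk2 <;> simp only [zero_smul, one_smul, zero_add, add_zero] at hk2
      · exact m13 hk2.symm
      · exact m12 (by linear_combination (norm := module) -hk2 - a3)
      · exact n3 (by linear_combination (norm := module) -hk2)
      · exact n2 (by linear_combination (norm := module) -hk2 - a3)
  · push Not at hind
    obtain ⟨k, hk, hk0⟩ := hind
    have hv : ∀ e, k 0 • F1 (io v0 v1 v2 e) + k 1 • F2 (io v0 v1 v2 e) +
        k 2 • F3 (io v0 v1 v2 e) + k 3 • G1 (io v0 v1 v2 e) + k 4 • G2 (io v0 v1 v2 e) = 0 := by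
      intro e
      have := hcomb k 0 (by rw [map_zero, hk]) e
      rw [← this]
      rfl
    have hcr : ∀ s, gg k (cr e1 e2 e3 (ph l1 l2 l0 s)) = gg k s := by
      intro s
      rw [hB.co]
    have hR' : Rl y (fun l => gg k (cr e1 e2 e3 l)) := by
      intro e
      rw [rel _ (gg k) hcr e, sumP3, ← hv e, f1, f2, f3, g1, g2, gg000, gg001, gg010, gg011, gg100,
        gg101, gg110, gg111, pl0]
      simp only [zero_mul, zero_smul, zero_add, add_zero, mul_smul, smul_add, add_smul]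
      abel
    have h0 : (fun l => gg k (cr e1 e2 e3 l)) 0 = 0 := by
      have := hcr 0
      rw [p0] at this
      exact this.trans (gg000 k)
    have hne : (fun l => gg k (cr e1 e2 e3 l)) ≠ 0 := by
      intro h
      have h1 : ∀ s, gg k s = 0 := fun s => by
        rw [← hcr s]
        exact congrFun h _
      apply hk0
      funext i
      fin_cases i
      · exact (gg010 k).symm.trans (h1 _)
      · exact (gg100 k).symm.trans (h1 _)
      · exact (gg110 k).symm.trans (h1 _)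
      · exact (gg011 k).symm.trans (h1 _)
      · exact (gg101 k).symm.trans (h1 _)
    rcases hCLS V A v0 v1 v2 y hC _ h0 hne hR' with ⟨e0, he0, h1⟩ | ⟨l0', hl0', h1⟩
    · refine ⟨e0, he0, ?_⟩
      have h2 : (fun l => gg k (cr e1 e2 e3 l)) = fun l => dt l e0 := funext h1
      rw [← h2]
      exact hR'
    · exfalso
      have h2 : ph l1 l2 l0 (1, 1, 1) = l0' := by
        by_contra hcon
        have h3 := h1 _ (pne (1, 1, 1) (by decide))
        rw [if_neg hcon, hcr, gg111] at h3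
        exact absurd h3 (by decide)
      have h3 : ∀ s : P3, s ≠ 0 → s ≠ (1, 1, 1) → gg k s = 1 := by
        intro s hs hs1
        have h4 := h1 _ (pne s hs)
        rw [if_neg (fun h => hs1 (pinj (h.trans h2.symm))), hcr] at h4
        exact h4
      have h4 := hR' e1
      rw [rel _ (gg k) hcr e1, sumP3] at h4
      simp only [d1] at h4
      rw [gg111, h3 (1, 0, 0) (by decide) (by decide), h3 (1, 0, 1) (by decide) (by decide),
        h3 (1, 1, 0) (by decide) (by decide)] at h4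
      have h5 : Y (1, 0, 0) + (Y (1, 0, 1) + Y (1, 1, 0)) = 0 := by simpa using h4
      apply n6
      linear_combination (norm := module) R1 - h5

end Pool.Agent.H89M5.BETA
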