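import Pool.Agent.H89M5.Stm

set_option autoImplicit false
set_option linter.unusedSectionVars false

namespace Pool.Agent.H89M5.CF

open Module Pool.Agent.W622.ETG

/-- `e, e', e''` span -/
def Spn (e e' e'' : P3) : Prop := ∀ x : P3, ∃ a b c : ZMod 2,
  x = (a * e.1 + b * e'.1 + c * e''.1, a * e.2.1 + b * e'.2.1 + c * e''.2.1,
          a * e.2.2 + b * e'.2.2 + c * e''.2.2)

instance (e e' e'' : P3) : Decidable (Spn e e' e'') := by
  unfold Spn
  infer_instance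

theorem basis_fin : ∀ l : P3, l ≠ 0 → l ≠ (1, 1, 1) →
    ∃ e : P3, (dt l e = 0 ∧ dt (1, 1, 1) e = 1) ∧ ∃ e' : P3, (dt l e' = 0 ∧ dt (1, 1, 1) e' = 1) ∧
      ∃ e'' : P3, dt l e'' = 1 ∧ Spn e e' e'' := by
  decide

theorem four_fin : ∀ e : P3, dt (1, 1, 1) e = 1 →
    e = (1, 0, 0) ∨ e = (0, 1, 0) ∨ e = (0, 0, 1) ∨ e = (1, 1, 1) := by
  decide

section
variable {V : Type} [AddCommGroup V] [Module (ZMod 2) V]

theorem io_comb (v0 v1 v2 : V) (e e' e'' : P3) (a b c : ZMod 2) :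
    io v0 v1 v2 (a * e.1 + b * e'.1 + c * e''.1, a * e.2.1 + b * e'.2.1 + c * e''.2.1,
          a * e.2.2 + b * e'.2.2 + c * e''.2.2) =
      a • io v0 v1 v2 e + b • io v0 v1 v2 e' + c • io v0 v1 v2 e'' := by
  simp only [io]
  module

theorem dt_comb (l e e' e'' : P3) (a b c : ZMod 2) :
    dt l (a * e.1 + b * e'.1 + c * e''.1, a * e.2.1 + b * e'.2.1 + c * e''.2.1,
          a * e.2.2 + b * e'.2.2 + c * e''.2.2) = a * dt l e + b * dt l e' + c * dt l e'' := by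
  simp only [dt]
  ring

theorem key (A : Fam V) (hA : Linked A) (v0 v1 v2 : V) (h : Dl V)
    (h4 : ∀ e : P3, dt (1, 1, 1) e = 1 → Iv A (io v0 v1 v2 e) h) (l : P3) (hl : l ≠ 0) :
    ∃ y : Dl V, ∃ ω ∈ A, ∀ e, ω (io v0 v1 v2 e) = dt (1, 1, 1) e • h + dt l e • y := by
  by_cases hl1 : l = (1, 1, 1)
  · subst hl1
    refine ⟨h, 0, A.zero_mem, fun e => ?_⟩
    rw [vadd]
    rfl
  obtain ⟨e, ⟨he0, he1⟩, e', ⟨he0', he1'⟩, e'', he'', hx⟩ := basis_fin l hl hl1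
  obtain ⟨ω1, hω1, h1⟩ := h4 e he1
  obtain ⟨ω2, hω2, h2⟩ := h4 e' he1'
  obtain ⟨ζ, hζ, h3, h5⟩ := hA ω1 hω1 ω2 hω2 (io v0 v1 v2 e) (io v0 v1 v2 e') (h1.trans h2.symm)
  rw [h1] at h3 h5
  refine ⟨ζ (io v0 v1 v2 e'') + dt (1, 1, 1) e'' • h, ζ, hζ, fun x => ?_⟩
  obtain ⟨a, b, c, rfl⟩ := hx x
  rw [io_comb, dt_comb, dt_comb, he0, he0', he'', he1, he1', map_add, map_add, map_smul, map_smul,
    map_smul, h3, h5]
  have h6 : (c * dt (1, 1, 1) e'') • h + (c * dt (1, 1, 1) e'') • h = 0 := vadd _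
  calc a • h + b • h + c • ζ (io v0 v1 v2 e'')
      = a • h + b • h + c • ζ (io v0 v1 v2 e'') +
        ((c * dt (1, 1, 1) e'') • h + (c * dt (1, 1, 1) e'') • h) := by rw [h6, add_zero]
    _ = (a * 1 + b * 1 + c * dt (1, 1, 1) e'') • h +
        (a * 0 + b * 0 + c * 1) • (ζ (io v0 v1 v2 e'') + dt (1, 1, 1) e'' • h) := by module

end

theorem t : S_CF := by
  intro V _ _ A hA v0 v1 v2 h hv0 hv1 hv2 hv3 hno
  have h4 : ∀ e : P3, dt (1, 1, 1) e = 1 → Iv A (io v0 v1 v2 e) h := by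
    intro e he
    rcases four_fin e he with rfl | rfl | rfl | rfl
    · simpa [io] using hv0
    · simpa [io] using hv1
    · simpa [io] using hv2
    · simpa [io] using hv3
  have hk : ∀ l : P3, ∃ y : Dl V, l ≠ 0 →
      ∃ ω ∈ A, ∀ e, ω (io v0 v1 v2 e) = dt (1, 1, 1) e • h + dt l e • y := by
    intro l
    by_cases hl : l = 0
    · exact ⟨0, fun h => absurd hl h⟩
    · obtain ⟨y, hy⟩ := key A hA v0 v1 v2 h h4 l hl
      exact ⟨y, fun _ => hy⟩
  choose y hy using hk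
  refine ⟨y, ?_, ?_⟩
  · intro l m hl hm
    obtain ⟨ω, hω, h1⟩ := hy l hl
    obtain ⟨η, hη, h2⟩ := hy m hm
    refine ⟨ω + η, A.add_mem hω hη, fun e => ?_⟩
    rw [LinearMap.add_apply, h1, h2]
    have h6 : dt (1, 1, 1) e • h + dt (1, 1, 1) e • h = 0 := vadd _
    calc dt (1, 1, 1) e • h + dt l e • y l + (dt (1, 1, 1) e • h + dt m e • y m)
        = (dt (1, 1, 1) e • h + dt (1, 1, 1) e • h) + (dt l e • y l + dt m e • y m) := by abel
      _ = dt l e • y l + dt m e • y m := by rw [h6, zero_add]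
  · intro l hl ω hω
    by_contra hcon
    push Not at hcon
    obtain ⟨η, hη, h1⟩ := hy l hl
    have h7 : ∀ e, (ω + η) (io v0 v1 v2 e) = dt (1, 1, 1) e • h := by
      intro e
      rw [LinearMap.add_apply, h1, hcon e]
      have h6 : dt l e • y l + dt l e • y l = 0 := vadd _
      calc dt l e • y l + (dt (1, 1, 1) e • h + dt l e • y l)
          = (dt l e • y l + dt l e • y l) + dt (1, 1, 1) e • h := by abel
        _ = dt (1, 1, 1) e • h := by rw [h6, zero_add]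
    apply hno
    refine ⟨ω + η, A.add_mem hω hη, ?_, ?_, ?_⟩
    · have := h7 (1, 0, 0)
      simpa [io, dt] using this
    · have := h7 (0, 1, 0)
      simpa [io, dt] using this
    · have := h7 (0, 0, 1)
      simpa [io, dt] using this

end Pool.Agent.H89M5.CF
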