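import Pool.Agent.H89M5.Stm

set_option autoImplicit false

/-!
Project M5, stub CLS.
-/

namespace Pool.Agent.H89M5.CLS

open Module Pool.Agent.W622.ETG

/-- the function with the given values -/
def mk (a1 a2 a3 a4 a5 a6 a7 : ZMod 2) (l : P3) : ZMod 2 :=
  if l = (1, 0, 0) then a1 else if l = (0, 1, 0) then a2 else if l = (1, 1, 0) then a3 else
  if l = (0, 0, 1) then a4 else if l = (1, 0, 1) then a5 else if l = (0, 1, 1) then a6 else
  if l = (1, 1, 1) then a7 else 0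

theorem cases8 : ∀ l : P3, l = 0 ∨ l = (1, 0, 0) ∨ l = (0, 1, 0) ∨ l = (1, 1, 0) ∨ l = (0, 0, 1) ∨ l = (1, 0, 1) ∨
    l = (0, 1, 1) ∨ l = (1, 1, 1) := by
  decide

theorem eq_mk (c : P3 → ZMod 2) (h0 : c 0 = 0) :
    c = mk (c (1, 0, 0)) (c (0, 1, 0)) (c (1, 1, 0)) (c (0, 0, 1)) (c (1, 0, 1)) (c (0, 1, 1)) (c (1, 1, 1)) := by
  funext l
  rcases cases8 l with h | h | h | h | h | h | h | h <;> subst h
  · rw [h0]; rfl
  all_goals rfl

/-- the finite statement -/
def Q1 (c : P3 → ZMod 2) : Prop := ∃ e l : P3, c l * dt l e = 1 ∧ ∀ k : P3, k ≠ l → c k * dt k e = 0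

instance : DecidablePred Q1 := fun c => by
  unfold Q1
  infer_instance

/-- the finite statement -/
def Q2 (c : P3 → ZMod 2) : Prop := ∃ e0 : P3, e0 ≠ 0 ∧ ∀ l, c l = dt l e0

instance : DecidablePred Q2 := fun c => by
  unfold Q2
  infer_instance

/-- the finite statement -/
def Q3 (c : P3 → ZMod 2) : Prop := ∃ l0 : P3, l0 ≠ 0 ∧ ∀ l, l ≠ 0 → c l = if l = l0 then 0 else 1

instance : DecidablePred Q3 := fun c => by
  unfold Q3
  infer_instance

/-- the finite statement -/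
def Q4 (c : P3 → ZMod 2) : Prop := (∀ l, c l = 0) ∨ (∑ l, c l = 1) ∨ Q1 c ∨ Q2 c ∨ Q3 c

instance : DecidablePred Q4 := fun c => by
  unfold Q4
  infer_instance

theorem fin : ∀ a1 a2 a3 a4 a5 a6 a7 : ZMod 2, Q4 (mk a1 a2 a3 a4 a5 a6 a7) := by
  decide +kernel

theorem t : S_CLS := by
  classical
  intro V _ _ A v0 v1 v2 y hC c h0 hc hR
  have hy : ∀ l : P3, l ≠ 0 → y l ≠ 0 := by
    intro l hl hy
    obtain ⟨e, he⟩ := hC.bad l hl 0 A.zero_mem
    exact he (by rw [hy, smul_zero, LinearMap.zero_apply])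
  rcases fin (c (1, 0, 0)) (c (0, 1, 0)) (c (1, 1, 0)) (c (0, 0, 1)) (c (1, 0, 1)) (c (0, 1, 1)) (c (1, 1, 1))
    with h | h | h | h | h
  · rw [← eq_mk c h0] at h
    exact absurd (funext h) hc
  · exfalso
    rw [← eq_mk c h0] at h
    have hm : ((1, 0, 0) : P3) ≠ 0 := by decide
    have hex : ∀ l : P3, ∃ ω ∈ A, l ≠ 0 → ∀ e, ω (io v0 v1 v2 e) = dt l e • y l + dt (1, 0, 0) e • y (1, 0, 0) := by
      intro l
      by_cases hl : l = 0
      · exact ⟨0, A.zero_mem, fun h => absurd hl h⟩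
      · obtain ⟨ω, h1, h2⟩ := hC.mem l (1, 0, 0) hl hm
        exact ⟨ω, h1, fun _ => h2⟩
    choose w hwA hw using hex
    obtain ⟨e, he⟩ := hC.bad (1, 0, 0) hm (∑ l, c l • w l)
      (A.sum_mem fun l _ => A.smul_mem _ (hwA l))
    apply he
    rw [LinearMap.sum_apply]
    have h1 : ∀ l ∈ (Finset.univ : Finset P3), (c l • w l) (io v0 v1 v2 e) =
        (c l * dt l e) • y l + c l • (dt (1, 0, 0) e • y (1, 0, 0)) := by
      intro l _
      by_cases hl : l = 0
      · rw [hl, h0, zero_smul, zero_mul, zero_smul, zero_smul, LinearMap.zero_apply, add_zero]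
      · rw [LinearMap.smul_apply, hw l hl e, smul_add, smul_smul]
    rw [Finset.sum_congr rfl h1, Finset.sum_add_distrib, hR e, ← Finset.sum_smul, h, one_smul, zero_add]
  · exfalso
    obtain ⟨e, l, h1, h2⟩ := h
    rw [← eq_mk c h0] at h1 h2
    have hl : l ≠ 0 := by
      intro hl
      rw [hl, h0, zero_mul] at h1
      exact absurd h1 (by decide)
    have h3 := hR e
    rw [Finset.sum_eq_single l (fun k _ hk => by rw [h2 k hk, zero_smul])
      (fun h => absurd (Finset.mem_univ _) h), h1, one_smul] at h3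
    exact hy l hl h3
  · rw [← eq_mk c h0] at h
    exact Or.inl h
  · rw [← eq_mk c h0] at h
    exact Or.inr h

end Pool.Agent.H89M5.CLS
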