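import Pool.Agent.H89M5.Glob
import Pool.Agent.H89FL.Field

set_option autoImplicit false
set_option linter.unusedSectionVars false

/-! Fields for which the groups `Q_x + Q_y + Q_z` have at most 32 elements. -/

namespace Pool.Agent.H89M5

open Pool.Agent.H315R3.ETC Pool.Agent.TH188.ET Pool.Agent.W622.ETG Pool.Agent.H89FL Module

universe u v

section
variable {S : QData} {B : Type v} [AddCommGroup B] {β : S.G → S.G → B}

theorem finB (H : Sys S β) : Finite B := by
  have := H.fin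
  have htop : AddSubgroup.closure (Set.range fun z : S.G × S.G => β z.1 z.2) = ⊤ := by
    by_contra hcon
    obtain ⟨b, hb⟩ : ∃ b, b ∉ AddSubgroup.closure (Set.range fun z : S.G × S.G => β z.1 z.2) := by
      by_contra h
      push Not at h
      exact hcon (by ext b; exact ⟨fun _ => AddSubgroup.mem_top _, fun _ => h b⟩)
    obtain ⟨l, h1, h2⟩ := exists_char _ (fun x => by rw [H.two]; exact AddSubgroup.zero_mem _) _ hb
    refine h2 ?_
    rw [H.gen l fun a b => h1 _ (AddSubgroup.subset_closure ⟨(a, b), rfl⟩)]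
    rfl
  have : AddGroup.FG B := AddGroup.fg_iff.2 ⟨_, htop, Set.finite_range _⟩
  refine AddCommGroup.finite_of_fg_isAddTorsion B (fun b => ?_)
  rw [isOfFinAddOrder_iff_nsmul_eq_zero]
  exact ⟨2, by norm_num, by rw [two_nsmul]; exact H.two b⟩

/-- the dual of a finite group of exponent two -/
theorem card_dual (X : Type v) [AddCommGroup X] (hf : Finite X) (h2 : ∀ x : X, x + x = 0) :
    Finite (X →+ ZMod 2) ∧ Nat.card (X →+ ZMod 2) ≤ Nat.card X := by
  let _ : Module (ZMod 2) X := AddCommGroup.zmodModule (n := 2) (by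
    intro x
    rw [two_smul]
    exact h2 x)
  have hfin : Finite (X →+ ZMod 2) := DFunLike.finite _
  refine ⟨hfin, ?_⟩
  have hfin' : Finite (X →ₗ[ZMod 2] ZMod 2) := DFunLike.finite _
  have h1 : Nat.card (X →+ ZMod 2) ≤ Nat.card (X →ₗ[ZMod 2] ZMod 2) := by
    refine Nat.card_le_card_of_injective (fun l => AddMonoidHom.toZModLinearMap 2 l) ?_
    intro l m h
    ext b
    exact LinearMap.congr_fun h b
  have h3 : Nat.card (X →ₗ[ZMod 2] ZMod 2) = 2 ^ finrank (ZMod 2) X := by
    rw [Module.natCard_eq_pow_finrank (K := ZMod 2), Nat.card_zmod]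
    congr 1
    exact Subspace.dual_finrank_eq
  have h4 : Nat.card X = 2 ^ finrank (ZMod 2) X := by
    rw [Module.natCard_eq_pow_finrank (K := ZMod 2), Nat.card_zmod]
  rw [h4, ← h3]
  exact h1

/-- `Q_a` -/
def Qc (β : S.G → S.G → B) (a : S.G) : AddSubgroup B := AddSubgroup.closure (Set.range (β a))

variable [Module (ZMod 2) (Additive S.G)]

theorem d5_fam (H : Sys S β) {C : AddSubgroup B}
    (h32 : ∀ x y z : S.G, C.relIndex (Qc β x ⊔ Qc β y ⊔ Qc β z) ≤ 32) : D5 (fam H C) := by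
  classical
  intro x y z
  have hB : Finite B := finB H
  have : Finite (Additive S.G) := H.fin
  have : Finite (Dl (Additive S.G)) := DFunLike.finite _
  set Q : AddSubgroup B := Qc β x.toMul ⊔ Qc β y.toMul ⊔ Qc β z.toMul with hQ
  have hx : ∀ b, β x.toMul b ∈ Q := fun b =>
    (le_sup_left.trans le_sup_left : Qc β x.toMul ≤ Q) (AddSubgroup.subset_closure ⟨b, rfl⟩)
  have hy : ∀ b, β y.toMul b ∈ Q := fun b =>
    (le_sup_right.trans le_sup_left : Qc β y.toMul ≤ Q) (AddSubgroup.subset_closure ⟨b, rfl⟩)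
  have hz : ∀ b, β z.toMul b ∈ Q := fun b =>
    (le_sup_right : Qc β z.toMul ≤ Q) (AddSubgroup.subset_closure ⟨b, rfl⟩)
  have hmem : ∀ m : (fam H C).map (rE x y z), ∃ l : B →+ ZMod 2, (∀ c ∈ C, l c = 0) ∧
      m.1 = rE x y z (frm H l) := by
    rintro ⟨_, ω, ⟨l, hl, rfl⟩, rfl⟩
    exact ⟨l, hl, rfl⟩
  choose l hl1 hl2 using hmem
  let f : (fam H C).map (rE x y z) → (Q ⧸ C.addSubgroupOf Q →+ ZMod 2) := fun m =>
    QuotientAddGroup.lift _ ((l m).comp Q.subtype) (fun c hc => hl1 m c.1 hc)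
  have hf : Function.Injective f := by
    intro m m' h
    apply Subtype.ext
    rw [hl2 m, hl2 m']
    have h1 : ∀ q ∈ Q, l m q = l m' q := by
      intro q hq
      exact DFunLike.congr_fun h (QuotientAddGroup.mk (⟨q, hq⟩ : Q))
    refine Prod.ext ?_ (Prod.ext ?_ ?_)
    · exact LinearMap.ext fun b => h1 _ (hx b.toMul)
    · exact LinearMap.ext fun b => h1 _ (hy b.toMul)
    · exact LinearMap.ext fun b => h1 _ (hz b.toMul)
  have h2 : ∀ q : Q ⧸ C.addSubgroupOf Q, q + q = 0 := by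
    intro q
    obtain ⟨b, rfl⟩ := QuotientAddGroup.mk_surjective q
    rw [← QuotientAddGroup.mk_add]
    have : b + b = 0 := Subtype.ext (H.two b.1)
    rw [this]
    rfl
  obtain ⟨hfin, hc⟩ := card_dual (Q ⧸ C.addSubgroupOf Q) inferInstance h2
  have h3 := (Nat.card_le_card_of_injective f hf).trans (hc.trans (h32 x.toMul y.toMul z.toMul))
  rw [card_pow (Dl (Additive S.G) × Dl (Additive S.G) × Dl (Additive S.G))
    ((fam H C).map (rE x y z)) inferInstance] at h3
  exact pow_le h3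

theorem hered_local (H : Sys S β) {C : AddSubgroup B} (hL : LinkedG β C)
    (h32 : ∀ x y z : S.G, C.relIndex (Qc β x ⊔ Qc β y ⊔ Qc β z) ≤ 32) : Hered (fam H C) := by
  have : Finite (Additive S.G) := H.fin
  exact hered5L (fam_efam H C) (linked_fam H hL) (d5_fam H h32)

/-- the structure of the family is of elementary type -/
theorem elem_fam (H : Sys S β) {C : AddSubgroup B} (h : Hered (fam H C)) :
    Elem (QD (ee S) (fam H C)) := by
  obtain ⟨hcore, -, hout, -⟩ := Pool.Agent.W622.ETG.all_parts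
  have : Finite (Additive S.G) := H.fin
  exact hout _ _ _ (hcore _ _ _ (fam_efam H C) h)

end

section
variable {F : Type u} [Field F]

/-- the structure of the family of `C` is the structure modulo `C` -/
theorem structure_mod {S : QData} [Module (ZMod 2) (Additive S.G)] (φ : Fˣ →* S.G)
    (hs : Function.Surjective φ) (hk : ∀ a : Fˣ, φ a = 1 ↔ ∃ b : Fˣ, a = b ^ 2)
    (hn : φ (-1) = S.neg) (r : S.G → Fˣ)
    (hφ : ∀ a b : Fˣ, sy (F := F) (r (φ a)) (r (φ b)) = sy a b)
    (H : Sys S (fun g h => sy (F := F) (r g) (r h))) (C : AddSubgroup (K2 F)) :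
    IsStructureMod F C (QD (ee S) (fam H C)) := by
  let ψ : Fˣ →* Multiplicative (Additive S.G) :=
    ((MulEquiv.multiplicativeAdditive S.G).symm : S.G →* Multiplicative (Additive S.G)).comp φ
  refine ⟨ψ, ?_, ?_, ?_, ?_, ?_⟩
  · exact (MulEquiv.multiplicativeAdditive S.G).symm.surjective.comp hs
  · intro a
    rw [← hk a]
    exact (MulEquiv.multiplicativeAdditive S.G).symm.map_eq_one_iff
  · show (MulEquiv.multiplicativeAdditive S.G).symm (φ (-1)) = _
    rw [hn]
    rfl
  · funext ω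
    exact map_zero (ω.1 (Multiplicative.toAdd (1 : Multiplicative (Additive S.G))))
  · intro a b c d
    refine Iff.trans (Pool.Agent.TH188.ET8.QD_eq _ _ _ _ _) ?_
    constructor
    · intro h1
      have h2 := mem_of_fam H (C := C) (a := φ a) (b := φ b) (c := φ c) (d := φ d) h1
      have h3 : sy (r (φ a)) (r (φ b)) + sy (r (φ c)) (r (φ d)) ∈ C := h2
      rw [hφ, hφ] at h3
      rwa [sub_eq]
    · intro h1 ω hω
      rw [sub_eq] at h1
      have h3 : sy (r (φ a)) (r (φ b)) + sy (r (φ c)) (r (φ d)) ∈ C := by rwa [hφ, hφ]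
      exact eq_of_mem H h3 hω

/-- `Q_a = {a, F*}` -/
def QGroup (a : Fˣ) : AddSubgroup (K2 F) := AddSubgroup.closure (Set.range (sy a))

end

/-- the main theorem -/
theorem field32 {F : Type*} [Field F] (h2 : (2 : F) ≠ 0) (hfin : FinSq F) :
    Finite (K2 F) ∧
    (∀ (k : ℕ) (C : ℕ → AddSubgroup (K2 F)), LinkedChain F k C →
      (∀ x y z : Fˣ, (C k).relIndex (QGroup x ⊔ QGroup y ⊔ QGroup z) ≤ 32) →
      ∃ S : QData, Elem S ∧ IsStructureOf F S) ∧
    (∀ C : AddSubgroup (K2 F), LinkedMod F C →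
      (∀ x y z : Fˣ, C.relIndex (QGroup x ⊔ QGroup y ⊔ QGroup z) ≤ 32) →
      ElementaryMod F C) ∧
    LinkedMod F ⊥ := by
  obtain ⟨S, hS, hSfin, hSq⟩ := exists_structure h2 hfin
  have hS' := hS
  obtain ⟨φ, hs, hk, hn, h0, hq⟩ := hS'
  have hs' := hs
  choose r hr using hs'
  obtain ⟨H, hφ⟩ := sys h2 hSq hSfin φ hk hq h0 r hr
  let _ : Module (ZMod 2) (Additive S.G) := AddCommGroup.zmodModule (n := 2) (by
    intro x
    rw [two_smul]
    exact hSq.exp2 x.toMul)
  have hL := fun C => linkedMod_iff (F := F) φ r hr hφ C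
  have hQ : ∀ g : S.G, Qc (fun g h => sy (F := F) (r g) (r h)) g = QGroup (r g) := by
    intro g
    unfold Qc QGroup
    congr 1
    ext t
    constructor
    · rintro ⟨b, rfl⟩
      exact ⟨r b, rfl⟩
    · rintro ⟨b, rfl⟩
      refine ⟨φ b, ?_⟩
      show sy (r g) (r (φ b)) = sy (r g) b
      rw [← hφ (r g) b, hr]
  have hcond : ∀ C : AddSubgroup (K2 F),
      (∀ x y z : Fˣ, C.relIndex (QGroup x ⊔ QGroup y ⊔ QGroup z) ≤ 32) →
      ∀ x y z : S.G, C.relIndex (Qc (fun g h => sy (F := F) (r g) (r h)) x ⊔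
        Qc (fun g h => sy (F := F) (r g) (r h)) y ⊔
        Qc (fun g h => sy (F := F) (r g) (r h)) z) ≤ 32 := by
    intro C hC x y z
    rw [hQ, hQ, hQ]
    exact hC _ _ _
  refine ⟨finB H, ?_, ?_, ?_⟩
  · intro k C hC h3
    have hC' : ChainG (fun g h => sy (F := F) (r g) (r h)) k C :=
      ⟨hC.zero, hC.index, fun i hi => (hL _).1 (hC.linked i hi)⟩
    exact ⟨S, elem_of_hered H (hered_chain H hC'
      (hered_local H (hC'.link k le_rfl) (hcond _ h3))), hS⟩
  · intro C hC h3
    exact ⟨_, elem_fam H (hered_local H ((hL _).1 hC) (hcond _ h3)),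
      structure_mod φ hs hk hn r hφ H C⟩
  · exact (hL _).2 (linkedG_bot H)

end Pool.Agent.H89M5
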