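import Pool.Agent.H89M5.Main

set_option autoImplicit false
set_option linter.unusedSectionVars false
set_option linter.unusedTactic false
set_option linter.unreachableTactic false
set_option linter.unnecessarySeqFocus false
set_option linter.unusedSimpArgs false

/-!
Linked families whose restrictions to three-dimensional spaces have dimension at most five.
-/

namespace Pool.Agent.H89M5

open Module Pool.Agent.W622.ETG Pool.Agent.H89FL
open Pool.Agent.TH188.ETP (In PlaneAt linked_ann mem_list)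

section
variable {V : Type} [AddCommGroup V] [Module (ZMod 2) V]
variable {e : V} {A : Fam V} {p : Fin 3 → V} {a : V} {h : Dl V} {x : Fin 3 → Dl V}
  {F G : Fin 3 → Frm V}

/-- the restrictions to three-dimensional spaces have dimension at most five -/
def D5 (A : Fam V) : Prop := ∀ u v w : V, finrank (ZMod 2) (A.map (rE u v w)) ≤ 5

theorem smul_zero_of {X : Type} [AddCommGroup X] [Module (ZMod 2) X] {v : X} (hv : v ≠ 0)
    {c : ZMod 2} (hc : c • v = 0) : c = 0 := by
  rcases smul_eq_zero.1 hc with h4 | h4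
  · exact h4
  · exact absurd h4 hv

theorem Nd.key (N : Nd A p a h x F G) (h0 : h ≠ 0) {i j k : Fin 3} (hik : k ≠ i) (hjk : k ≠ j)
    (hx : ∀ s : ZMod 2, x i + x j + s • h ≠ 0) (c0 c1 c2 c3 c4 : ZMod 2)
    (ha : (c0 • F i + c1 • F j + c2 • F k + c3 • G i + c4 • G k) a = 0)
    (hp : (c0 • F i + c1 • F j + c2 • F k + c3 • G i + c4 • G k) (p k) = 0) :
    c0 = 0 ∧ c1 = 0 ∧ c2 = 0 ∧ c3 = 0 := by
  simp only [LinearMap.add_apply, LinearMap.smul_apply, N.Fa, N.Ga, N.Fp, N.Gp, if_neg hik,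
    if_neg hjk, if_true, smul_zero, add_zero] at ha hp
  rcases z01 c0 with rfl | rfl <;> rcases z01 c1 with rfl | rfl
  · simp only [zero_smul, zero_add] at ha hp
    exact ⟨rfl, rfl, smul_zero_of h0 ha, smul_zero_of h0 hp⟩
  · exfalso
    simp only [zero_smul, one_smul, zero_add] at hp
    exact N.x_ne j _ hp
  · exfalso
    simp only [zero_smul, one_smul, add_zero] at hp
    exact N.x_ne i _ hp
  · exfalso
    simp only [one_smul] at hp
    exact hx _ hp

theorem Nd.loc [Finite V] (N : Nd A p a h x F G) (hA : EFam e A) (h0 : h ≠ 0) (h5 : D5 A)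
    {i j k : Fin 3} (hik : k ≠ i) (hjk : k ≠ j)
    (hx : ∀ s : ZMod 2, x i + x j + s • h ≠ 0) {ω : Frm V} (hω : ω ∈ A) (ha : ω a = 0)
    (hp : ∀ j, ω (p j) = 0) {y : V} (hy : h y = 1) : ω y = 0 := by
  have hfin : Finite A := fin_fam A
  have hfin' : Finite (Dl V) := DFunLike.finite _
  have hG1 : G k y (p i) = 1 := by
    rw [(hA _ (N.memG k)).symm, N.Gp, if_neg hik.symm, hy]
  have hG0 : G k y ≠ 0 := by
    intro h1
    rw [h1, LinearMap.zero_apply] at hG1
    exact absurd hG1 (by decide)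
  have hc : ∀ c : Fin 5 → ZMod 2,
      ∑ m, c m • (![rE a (p k) y (F i), rE a (p k) y (F j), rE a (p k) y (F k),
        rE a (p k) y (G i), rE a (p k) y (G k)] : Fin 5 → _) m =
      rE a (p k) y (c 0 • F i + c 1 • F j + c 2 • F k + c 3 • G i + c 4 • G k) := by
    intro c
    rw [Fin.sum_univ_five]
    simp only [map_add, map_smul]
    rfl
  have h1 := SP.t (Dl V × Dl V × Dl V) (A.map (rE a (p k) y)) inferInstance (h5 a (p k) y)
    ![rE a (p k) y (F i), rE a (p k) y (F j), rE a (p k) y (F k),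
        rE a (p k) y (G i), rE a (p k) y (G k)] (by
    intro m
    fin_cases m
    · exact Submodule.mem_map_of_mem (N.memF i)
    · exact Submodule.mem_map_of_mem (N.memF j)
    · exact Submodule.mem_map_of_mem (N.memF k)
    · exact Submodule.mem_map_of_mem (N.memG i)
    · exact Submodule.mem_map_of_mem (N.memG k)) (by
    intro c hc0
    rw [hc] at hc0
    have e1 : (c 0 • F i + c 1 • F j + c 2 • F k + c 3 • G i + c 4 • G k) a = 0 :=
      congrArg Prod.fst hc0
    have e2 : (c 0 • F i + c 1 • F j + c 2 • F k + c 3 • G i + c 4 • G k) (p k) = 0 :=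
      congrArg (fun z => z.2.1) hc0
    have e3 : (c 0 • F i + c 1 • F j + c 2 • F k + c 3 • G i + c 4 • G k) y = 0 :=
      congrArg (fun z => z.2.2) hc0
    obtain ⟨k0, k1, k2, k3⟩ := N.key h0 hik hjk hx _ _ _ _ _ e1 e2
    rw [k0, k1, k2, k3, zero_smul, zero_smul, zero_smul, zero_smul, zero_add, zero_add, zero_add,
      zero_add, LinearMap.smul_apply] at e3
    funext m
    fin_cases m
    · exact k0
    · exact k1
    · exact k2
    · exact k3
    · exact smul_zero_of hG0 e3)
  obtain ⟨c, h2⟩ := h1 (rE a (p k) y ω) (Submodule.mem_map_of_mem hω)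
  rw [hc] at h2
  have e1 : (c 0 • F i + c 1 • F j + c 2 • F k + c 3 • G i + c 4 • G k) a = 0 :=
    (congrArg Prod.fst h2).symm.trans ha
  have e2 : (c 0 • F i + c 1 • F j + c 2 • F k + c 3 • G i + c 4 • G k) (p k) = 0 :=
    (congrArg (fun z => z.2.1) h2).symm.trans (hp k)
  have e3 : ω y = (c 0 • F i + c 1 • F j + c 2 • F k + c 3 • G i + c 4 • G k) y :=
    congrArg (fun z => z.2.2) h2
  obtain ⟨k0, k1, k2, k3⟩ := N.key h0 hik hjk hx _ _ _ _ _ e1 e2
  rw [k0, k1, k2, k3, zero_smul, zero_smul, zero_smul, zero_smul, zero_add, zero_add, zero_add,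
    zero_add, LinearMap.smul_apply] at e3
  have e4 : ω y (p i) = 0 := by
    rw [(hA _ hω).symm, hp i, LinearMap.zero_apply]
  rw [e3, LinearMap.smul_apply, hG1, smul_eq_mul, mul_one] at e4
  rw [e3, e4, zero_smul]

/-- a member which vanishes on the three-dimensional space vanishes -/
theorem Nd.loc' [Finite V] (N : Nd A p a h x F G) (hA : EFam e A) (h0 : h ≠ 0) (h5 : D5 A)
    {ω : Frm V} (hω : ω ∈ A) (ha : ω a = 0) (hp : ∀ j, ω (p j) = 0) : ω = 0 := by
  have key : ∀ y : V, h y = 1 → ω y = 0 := by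
    intro y hy
    by_cases h1 : ∀ s : ZMod 2, x 0 + x 1 + s • h ≠ 0
    · exact N.loc hA h0 h5 (i := 0) (j := 1) (k := 2) (by decide) (by decide) h1 hω ha hp hy
    · by_cases h2 : ∀ s : ZMod 2, x 0 + x 2 + s • h ≠ 0
      · exact N.loc hA h0 h5 (i := 0) (j := 2) (k := 1) (by decide) (by decide) h2 hω ha hp hy
      · exfalso
        push Not at h1 h2
        obtain ⟨s, h1⟩ := h1
        obtain ⟨t, h2⟩ := h2
        exact N.i2 s t h1 h2
  obtain ⟨y0, hy0⟩ : ∃ y, h y = 1 := by
    by_contra hcon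
    push Not at hcon
    apply h0
    ext y
    rcases z01 (h y) with h1 | h1
    · exact h1
    · exact absurd h1 (hcon y)
  refine LinearMap.ext fun y => ?_
  rcases z01 (h y) with h1 | h1
  · have h2 := key (y + y0) (by rw [map_add, h1, hy0, zero_add])
    rw [map_add, key y0 hy0, add_zero] at h2
    exact h2
  · exact key y h1

/-- no bad planes -/
theorem plane5L [Finite V] (hA : EFam e A) (hL : Linked A) (h5 : D5 A)
    (hno : ∀ u : V, ∃ ω ∈ A, ω ≠ 0 ∧ ω u = 0) (v0 v1 v2 : V) : PlaneAt A v0 v1 v2 := by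
  intro h i0 i1 i2 i3
  by_contra hcon
  obtain ⟨y, hy⟩ := CF.t V A hL v0 v1 v2 h i0 i1 i2 i3 hcon
  have hr : finrank (ZMod 2) (A.map (rE v0 v1 v2)) ≤ 5 := h5 _ _ _
  obtain ⟨c, c0, c1, c2⟩ := REL.t V A v0 v1 v2 y hy hr
  obtain ⟨e0, he0, hre⟩ : ∃ e0 : P3, e0 ≠ 0 ∧ Rl y (fun l => dt l e0) := by
    rcases CLS.t V A v0 v1 v2 y hy c c0 c1 c2 with ⟨e0, h1, h2⟩ | ⟨l0, h1, h2⟩
    · refine ⟨e0, h1, ?_⟩
      have : (fun l => dt l e0) = c := funext fun l => (h2 l).symm
      rw [this]; exact c2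
    · exact BETA.t SP.t CLS.t V A v0 v1 v2 y hL hy hr c c0 c2 l0 h1 h2
  obtain ⟨p, a, h', x, F, G, N, hG, -, h0⟩ := NF.t SP.t V A v0 v1 v2 y hy hr e0 he0
    (AL.t V y e0 hre)
  refine Ns.no4 (e := e) ⟨N, hA, hL, h0, ?_, hno⟩
  intro ω hω
  obtain ⟨c, d, h1, h2⟩ := hG ω hω
  refine ⟨c, d, aez.1 (N.loc' hA h0 h5 (A.add_mem hω (A.sum_mem fun i _ =>
    A.add_mem (A.smul_mem _ (N.memF i)) (A.smul_mem _ (N.memG i)))) ?_ fun j => ?_)⟩
  · rw [LinearMap.add_apply, h1, vadd]
  · rw [LinearMap.add_apply, h2 j, vadd]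

theorem D5.mono [Finite V] {B : Fam V} (h : D5 A) (hB : B ≤ A) : D5 B := by
  intro u v w
  have : Finite (Dl V) := DFunLike.finite _
  exact (Submodule.finrank_mono (Submodule.map_mono hB)).trans (h u v w)

theorem linked_ann5L [Finite V] (hA : EFam e A) (hL : Linked A) (h5 : D5 A)
    (u : V) : Linked (res A (ann u)) := by
  by_cases hno : ∀ u : V, ∃ ω ∈ A, ω ≠ 0 ∧ ω u = 0
  · exact linked_ann hA hL (plane5L hA hL h5 hno) u
  · push Not at hno
    obtain ⟨w, hw⟩ := hno
    exact hered_slot hA hL (u := w) (fun ω hω h => by_contra fun h1 => hw ω hω h1 h) _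

theorem linked_list5L [Finite V] (l : List V) : ∀ A : Fam V, EFam e A → Linked A →
    D5 A → Linked (l.foldl (fun B u => res B (ann u)) A) := by
  induction l with
  | nil => intro A _ h _; exact h
  | cons u l ih =>
    intro A hA hL h5
    exact ih _ (hA.res _) (linked_ann5L hA hL h5 u) (h5.mono (res_le A _))

/-- linked families whose restrictions to three-dimensional spaces have dimension at most five
are hereditarily linked -/
theorem hered5L [Finite V] (hA : EFam e A) (hL : Linked A) (h5 : D5 A) : Hered A := by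
  classical
  intro X
  have : Fintype V := Fintype.ofFinite V
  let l : List V := (Finset.univ.filter (fun b : V => ∀ g ∈ X, g b = 0)).toList
  have hl : ∀ b, b ∈ l ↔ ∀ g ∈ X, g b = 0 := by
    intro b
    simp [l]
  have h1 : l.foldl (fun B u => W622.ETC.res B (ann u)) A = W622.ETC.res A X := by
    ext ω
    rw [mem_list l A hA ω]
    constructor
    · rintro ⟨h1, h2⟩
      refine ⟨h1, fun y => mem_of_coann fun b hb => ?_⟩
      rw [(hA ω h1).symm, h2 b ((hl b).2 hb)]
      rfl
    · rintro ⟨h1, h2⟩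
      refine ⟨h1, fun u hu => ?_⟩
      ext y
      rw [(hA ω h1).symm]
      exact (hl u).1 hu _ (h2 y)
  rw [← h1]
  exact linked_list5L l A hA hL h5

end

end Pool.Agent.H89M5
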