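import Pool.Agent.H89M5.Stm

/-!
# Stub NF of project M5: the normal form
-/

set_option autoImplicit false
set_option linter.unusedSectionVars false

namespace Pool.Agent.H89M5.NF

open Module Pool.Agent.W622.ETG Pool.Agent.H89M5

theorem dt_add_left (l m e : P3) : dt (l + m) e = dt l e + dt m e := by
  simp only [dt, Prod.fst_add, Prod.snd_add]
  ring

theorem dt_add_right (l e f : P3) : dt l (e + f) = dt l e + dt l f := by
  simp only [dt, Prod.fst_add, Prod.snd_add]
  ring

theorem dt_zero (e : P3) : dt 0 e = 0 := by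
  simp [dt]

/-- a dual basis containing a given vector -/
def wit (e0 : P3) : P3 × P3 × P3 × P3 × P3 :=
  if e0.1 = 1 then ((0, 1, 0), (0, 0, 1), (1, 0, 0), (e0.2.1, 1, 0), (e0.2.2, 0, 1))
  else if e0.2.1 = 1 then ((1, 0, 0), (0, 0, 1), (0, 1, 0), (1, 0, 0), (0, e0.2.2, 1))
  else ((1, 0, 0), (0, 1, 0), (0, 0, 1), (1, 0, 0), (0, 1, 0))

theorem wit_spec : ∀ e0 : P3, e0 ≠ 0 →
    dt (wit e0).2.2.1 e0 = 1 ∧ dt (wit e0).2.2.1 (wit e0).1 = 0 ∧
    dt (wit e0).2.2.1 (wit e0).2.1 = 0 ∧
    dt (wit e0).2.2.2.1 e0 = 0 ∧ dt (wit e0).2.2.2.1 (wit e0).1 = 1 ∧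
    dt (wit e0).2.2.2.1 (wit e0).2.1 = 0 ∧
    dt (wit e0).2.2.2.2 e0 = 0 ∧ dt (wit e0).2.2.2.2 (wit e0).1 = 0 ∧
    dt (wit e0).2.2.2.2 (wit e0).2.1 = 1 ∧
    ∀ e : P3, e = (dt (wit e0).2.2.2.1 e • (wit e0).1 + dt (wit e0).2.2.2.2 e • (wit e0).2.1
      + dt (wit e0).2.2.1 e • e0) := by
  decide

theorem basis (e0 : P3) (h0 : e0 ≠ 0) : ∃ e1 e2 l0 l1 l2 : P3,
    dt l0 e0 = 1 ∧ dt l0 e1 = 0 ∧ dt l0 e2 = 0 ∧
    dt l1 e0 = 0 ∧ dt l1 e1 = 1 ∧ dt l1 e2 = 0 ∧
    dt l2 e0 = 0 ∧ dt l2 e1 = 0 ∧ dt l2 e2 = 1 ∧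
    ∀ e : P3, e = (dt l1 e • e1 + dt l2 e • e2 + dt l0 e • e0) :=
  ⟨_, _, _, _, _, wit_spec e0 h0⟩

section
variable {V : Type} [AddCommGroup V] [Module (ZMod 2) V]

theorem io_add (v0 v1 v2 : V) (e f : P3) :
    io v0 v1 v2 (e + f) = io v0 v1 v2 e + io v0 v1 v2 f := by
  simp only [io, Prod.fst_add, Prod.snd_add, add_smul]
  abel

theorem io_smul (v0 v1 v2 : V) (c : ZMod 2) (e : P3) :
    io v0 v1 v2 (c • e) = c • io v0 v1 v2 e := by
  simp only [io, Prod.smul_fst, Prod.smul_snd, smul_add, smul_smul, smul_eq_mul]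

theorem ne_of_dt {l e : P3} (h : dt l e = 1) : l ≠ 0 := by
  rintro rfl
  rw [dt_zero] at h
  exact absurd h (by decide)

theorem io_zero_of {v0 v1 v2 : V} {η : Frm V} (h0 : η v0 = 0) (h1 : η v1 = 0) (h2 : η v2 = 0)
    (e : P3) : η (io v0 v1 v2 e) = 0 := by
  simp only [io, map_add, map_smul, h0, h1, h2, smul_zero, add_zero]

theorem io_eq_of {v0 v1 v2 : V} {η ω : Frm V} (h0 : η v0 = ω v0) (h1 : η v1 = ω v1)
    (h2 : η v2 = ω v2) (e : P3) : η (io v0 v1 v2 e) = ω (io v0 v1 v2 e) := by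
  simp only [io, map_add, map_smul, h0, h1, h2]

end

theorem t : S_NF := by
  intro hSP V _ _ _ A v0 v1 v2 y hC hfin e0 he0 hy
  obtain ⟨e1, e2, l0, l1, l2, a00, a01, a02, a10, a11, a12, a20, a21, a22, hexp⟩ := basis e0 he0
  have n0 : l0 ≠ 0 := ne_of_dt a00
  have n1 : l1 ≠ 0 := ne_of_dt a11
  have n2 : l2 ≠ 0 := ne_of_dt a22
  have n12 : l1 + l2 ≠ 0 := ne_of_dt (e := e1) (by rw [dt_add_left, a11, a21, add_zero])
  have m01 : dt (l0 + l1) e0 = 1 := by rw [dt_add_left, a00, a10, add_zero]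
  have m02 : dt (l0 + l2) e0 = 1 := by rw [dt_add_left, a00, a20, add_zero]
  have y01 : y (l0 + l1) = y l0 := hy _ _ m01 a00
  have y02 : y (l0 + l2) = y l0 := hy _ _ m02 a00
  obtain ⟨F0, F0A, hF0⟩ := hC.mem l0 l2 n0 n2
  obtain ⟨F1, F1A, hF1⟩ := hC.mem l0 l1 n0 n1
  obtain ⟨F2, F2A, hF2⟩ := hC.mem l0 (l1 + l2) n0 n12
  obtain ⟨G0, G0A, hG0⟩ := hC.mem l0 (l0 + l2) n0 (ne_of_dt m02)
  obtain ⟨G1, G1A, hG1⟩ := hC.mem l0 (l0 + l1) n0 (ne_of_dt m01)
  have two : (1 : ZMod 2) + 1 = 0 := by decide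
  -- values
  have F0a : F0 (io v0 v1 v2 e0) = y l0 := by rw [hF0, a00, a20, one_smul, zero_smul, add_zero]
  have F1a : F1 (io v0 v1 v2 e0) = y l0 := by rw [hF1, a00, a10, one_smul, zero_smul, add_zero]
  have F2a : F2 (io v0 v1 v2 e0) = y l0 := by
    rw [hF2, dt_add_left, a00, a10, a20, one_smul, add_zero, zero_smul, add_zero]
  have F00 : F0 (io v0 v1 v2 e1) = 0 := by rw [hF0, a01, a21, zero_smul, zero_smul, add_zero]
  have F01 : F0 (io v0 v1 v2 e2) = y l2 := by rw [hF0, a02, a22, zero_smul, one_smul, zero_add]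
  have F10 : F1 (io v0 v1 v2 e1) = y l1 := by rw [hF1, a01, a11, zero_smul, one_smul, zero_add]
  have F11 : F1 (io v0 v1 v2 e2) = 0 := by rw [hF1, a02, a12, zero_smul, zero_smul, zero_add]
  have F20 : F2 (io v0 v1 v2 e1) = y (l1 + l2) := by
    rw [hF2, dt_add_left, a01, a11, a21, add_zero, zero_smul, one_smul, zero_add]
  have F21 : F2 (io v0 v1 v2 e2) = y (l1 + l2) := by
    rw [hF2, dt_add_left, a02, a12, a22, zero_add, zero_smul, one_smul, zero_add]
  have G0v : ∀ e, G0 (io v0 v1 v2 e) = dt l2 e • y l0 := by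
    intro e
    rw [hG0, y02, ← add_smul, dt_add_left, ← add_assoc, vadd, zero_add]
  have G1v : ∀ e, G1 (io v0 v1 v2 e) = dt l1 e • y l0 := by
    intro e
    rw [hG1, y01, ← add_smul, dt_add_left, ← add_assoc, vadd, zero_add]
  have G0a : G0 (io v0 v1 v2 e0) = 0 := by rw [G0v, a20, zero_smul]
  have G1a : G1 (io v0 v1 v2 e0) = 0 := by rw [G1v, a10, zero_smul]
  have G00 : G0 (io v0 v1 v2 e1) = 0 := by rw [G0v, a21, zero_smul]
  have G01 : G0 (io v0 v1 v2 e2) = y l0 := by rw [G0v, a22, one_smul]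
  have G10 : G1 (io v0 v1 v2 e1) = y l0 := by rw [G1v, a11, one_smul]
  have G11 : G1 (io v0 v1 v2 e2) = 0 := by rw [G1v, a12, zero_smul]
  have hbad : ∀ ω ∈ A, ω (io v0 v1 v2 e1) = 0 → ω (io v0 v1 v2 e2) = 0 →
      ω (io v0 v1 v2 e0) ≠ y l0 := by
    intro ω hω h1 h2 h3
    obtain ⟨e, he⟩ := hC.bad l0 n0 ω hω
    apply he
    conv_lhs => rw [hexp e]
    rw [io_add, io_add, io_smul, io_smul, io_smul, map_add, map_add, map_smul, map_smul, map_smul,
      h1, h2, h3, smul_zero, smul_zero, zero_add, zero_add]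
  have h0 : y l0 ≠ 0 := by
    intro h
    exact hbad 0 A.zero_mem rfl rfl (by rw [h]; rfl)
  have x0z : y l2 ≠ 0 := fun h => hbad F0 F0A F00 (by rw [F01, h]) F0a
  have x1z : y l1 ≠ 0 := fun h => hbad F1 F1A (by rw [F10, h]) F11 F1a
  have x2z : y (l1 + l2) ≠ 0 := fun h =>
    hbad F2 F2A (by rw [F20, h]) (by rw [F21, h]) F2a
  have x0h : y l2 ≠ y l0 := fun h => hbad (F0 + G0) (A.add_mem F0A G0A)
    (by rw [LinearMap.add_apply, F00, G00, add_zero])
    (by rw [LinearMap.add_apply, F01, G01, h, vadd])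
    (by rw [LinearMap.add_apply, F0a, G0a, add_zero])
  have x1h : y l1 ≠ y l0 := fun h => hbad (F1 + G1) (A.add_mem F1A G1A)
    (by rw [LinearMap.add_apply, F10, G10, h, vadd])
    (by rw [LinearMap.add_apply, F11, G11, add_zero])
    (by rw [LinearMap.add_apply, F1a, G1a, add_zero])
  have x2h : y (l1 + l2) ≠ y l0 := fun h => hbad (F2 + (G0 + G1)) (A.add_mem F2A (A.add_mem G0A G1A))
    (by rw [LinearMap.add_apply, LinearMap.add_apply, F20, G00, G10, zero_add, h, vadd])
    (by rw [LinearMap.add_apply, LinearMap.add_apply, F21, G01, G11, add_zero, h, vadd])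
    (by rw [LinearMap.add_apply, LinearMap.add_apply, F2a, G0a, G1a, add_zero, add_zero])
  set P : Fin 3 → V := ![io v0 v1 v2 e1, io v0 v1 v2 e2, io v0 v1 v2 e1 + io v0 v1 v2 e2] with hP
  set F : Fin 3 → Frm V := ![F0, F1, F2] with hF
  set G : Fin 3 → Frm V := ![G0, G1, G0 + G1] with hG
  set x : Fin 3 → Dl V := ![y l2, y l1, y (l1 + l2)] with hx
  refine ⟨P, io v0 v1 v2 e0, y l0, x, F, G, ?_, ?_, rfl, h0⟩
  · refine ⟨?_, ?_, ?_, ?_, ?_, ?_, ?_, ?_, ?_⟩
    · show io v0 v1 v2 e1 + io v0 v1 v2 e2 + (io v0 v1 v2 e1 + io v0 v1 v2 e2) = 0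
      exact vadd _
    · intro i
      fin_cases i
      · exact F0A
      · exact F1A
      · exact F2A
    · intro i
      fin_cases i
      · exact G0A
      · exact G1A
      · exact A.add_mem G0A G1A
    · show G0 + G1 + (G0 + G1) = 0
      exact vadd (G0 + G1)
    · intro i
      fin_cases i
      · exact F0a
      · exact F1a
      · exact F2a
    · intro i
      fin_cases i
      · exact G0a
      · exact G1a
      · show (G0 + G1) (io v0 v1 v2 e0) = 0
        rw [LinearMap.add_apply, G0a, G1a, add_zero]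
    · intro i j
      fin_cases i <;> fin_cases j
      · exact F00
      · exact F01
      · show F0 (io v0 v1 v2 e1 + io v0 v1 v2 e2) = y l2
        rw [map_add, F00, F01, zero_add]
      · exact F10
      · exact F11
      · show F1 (io v0 v1 v2 e1 + io v0 v1 v2 e2) = y l1
        rw [map_add, F10, F11, add_zero]
      · exact F20
      · exact F21
      · show F2 (io v0 v1 v2 e1 + io v0 v1 v2 e2) = 0
        rw [map_add, F20, F21, vadd]
    · intro i j
      fin_cases i <;> fin_cases j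
      · exact G00
      · exact G01
      · show G0 (io v0 v1 v2 e1 + io v0 v1 v2 e2) = y l0
        rw [map_add, G00, G01, zero_add]
      · exact G10
      · exact G11
      · show G1 (io v0 v1 v2 e1 + io v0 v1 v2 e2) = y l0
        rw [map_add, G10, G11, add_zero]
      · show (G0 + G1) (io v0 v1 v2 e1) = y l0
        rw [LinearMap.add_apply, G00, G10, zero_add]
      · show (G0 + G1) (io v0 v1 v2 e2) = y l0
        rw [LinearMap.add_apply, G01, G11, add_zero]
      · show (G0 + G1) (io v0 v1 v2 e1 + io v0 v1 v2 e2) = 0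
        rw [LinearMap.add_apply, map_add, map_add, G00, G01, G10, G11, zero_add, add_zero, vadd]
    · intro ω hω h1 h2
      exact hbad ω hω h1 h2
  · -- Gen
    have key : ∀ c : Fin 5 → ZMod 2, ∀ ω : Frm V,
        (∑ i, c i • (![F0, F1, F2, G0, G1] : Fin 5 → Frm V) i) = ω →
        ω (io v0 v1 v2 e1) = c 1 • y l1 + c 2 • y (l1 + l2) + c 4 • y l0 ∧
        ω (io v0 v1 v2 e2) = c 0 • y l2 + c 2 • y (l1 + l2) + c 3 • y l0 ∧
        ω (io v0 v1 v2 e0) = (c 0 + c 1 + c 2) • y l0 := by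
      intro c ω h
      subst h
      simp only [Fin.sum_univ_five, LinearMap.add_apply, LinearMap.smul_apply]
      refine ⟨?_, ?_, ?_⟩
      · show c 0 • F0 _ + c 1 • F1 _ + c 2 • F2 _ + c 3 • G0 _ + c 4 • G1 _ = _
        rw [F00, F10, F20, G00, G10, smul_zero, smul_zero, zero_add, add_zero]
      · show c 0 • F0 _ + c 1 • F1 _ + c 2 • F2 _ + c 3 • G0 _ + c 4 • G1 _ = _
        rw [F01, F11, F21, G01, G11, smul_zero, smul_zero, add_zero, add_zero]
      · show c 0 • F0 _ + c 1 • F1 _ + c 2 • F2 _ + c 3 • G0 _ + c 4 • G1 _ = _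
        rw [F0a, F1a, F2a, G0a, G1a, smul_zero, smul_zero, add_zero, add_zero, add_smul, add_smul]
    intro ω hω
    have hfinM : Finite (A.map (rE v0 v1 v2)) := inferInstance
    obtain ⟨c, hc⟩ := hSP _ (A.map (rE v0 v1 v2)) hfinM hfin
      (fun i => rE v0 v1 v2 ((![F0, F1, F2, G0, G1] : Fin 5 → Frm V) i)) (by
        intro i
        apply Submodule.mem_map_of_mem
        fin_cases i
        · exact F0A
        · exact F1A
        · exact F2A
        · exact G0A
        · exact G1A) (by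
        intro c hc
        have h1 : rE v0 v1 v2 (∑ i, c i • (![F0, F1, F2, G0, G1] : Fin 5 → Frm V) i) = 0 := by
          rw [map_sum]
          simp only [map_smul]
          exact hc
        set η := (∑ i, c i • (![F0, F1, F2, G0, G1] : Fin 5 → Frm V) i) with hη
        have z0 : η v0 = 0 := congrArg Prod.fst h1
        have z1 : η v1 = 0 := congrArg (fun q => q.2.1) h1
        have z2 : η v2 = 0 := congrArg (fun q => q.2.2) h1
        obtain ⟨k1, k2, k3⟩ := key c η hη.symm
        rw [io_zero_of z0 z1 z2] at k1 k2 k3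
        have s : c 0 + c 1 + c 2 = 0 := by
          rcases smul_eq_zero.1 k3.symm with h | h
          · exact h
          · exact absurd h h0
        have hc2 : c 2 = 0 := by
          by_contra hne
          have e2 : c 2 = 1 := z_ne hne
          rcases z01 (c 1) with h | h
          · rw [h, e2, zero_smul, zero_add, one_smul] at k1
            rcases z01 (c 4) with h' | h'
            · rw [h', zero_smul, add_zero] at k1
              exact x2z k1.symm
            · rw [h', one_smul] at k1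
              exact x2h (Pool.Agent.H89FL.aez.1 k1.symm)
          · have h00 : c 0 = 0 := by
              rcases z01 (c 0) with h' | h'
              · exact h'
              · rw [h', h, e2] at s
                exact absurd s (by decide)
            rw [h00, e2, zero_smul, zero_add, one_smul] at k2
            rcases z01 (c 3) with h' | h'
            · rw [h', zero_smul, add_zero] at k2
              exact x2z k2.symm
            · rw [h', one_smul] at k2
              exact x2h (Pool.Agent.H89FL.aez.1 k2.symm)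
        rw [hc2, zero_smul, add_zero] at k1 k2
        have hc1 : c 1 = 0 := by
          by_contra hne
          rw [z_ne hne, one_smul] at k1
          rcases z01 (c 4) with h' | h'
          · rw [h', zero_smul, add_zero] at k1
            exact x1z k1.symm
          · rw [h', one_smul] at k1
            exact x1h (Pool.Agent.H89FL.aez.1 k1.symm)
        have hc0 : c 0 = 0 := by
          rw [hc1, hc2, add_zero, add_zero] at s
          exact s
        rw [hc1, zero_smul, zero_add] at k1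
        rw [hc0, zero_smul, zero_add] at k2
        have hc4 : c 4 = 0 := by
          rcases smul_eq_zero.1 k1.symm with h | h
          · exact h
          · exact absurd h h0
        have hc3 : c 3 = 0 := by
          rcases smul_eq_zero.1 k2.symm with h | h
          · exact h
          · exact absurd h h0
        funext i
        fin_cases i
        · exact hc0
        · exact hc1
        · exact hc2
        · exact hc3
        · exact hc4) (rE v0 v1 v2 ω) (Submodule.mem_map_of_mem hω)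
    have h1 : rE v0 v1 v2 ω
        = rE v0 v1 v2 (∑ i, c i • (![F0, F1, F2, G0, G1] : Fin 5 → Frm V) i) := by
      rw [map_sum]
      simp only [map_smul]
      exact hc
    have z0 : ω v0 = (∑ i, c i • (![F0, F1, F2, G0, G1] : Fin 5 → Frm V) i) v0 :=
      congrArg Prod.fst h1
    have z1 : ω v1 = (∑ i, c i • (![F0, F1, F2, G0, G1] : Fin 5 → Frm V) i) v1 :=
      congrArg (fun q => q.2.1) h1
    have z2 : ω v2 = (∑ i, c i • (![F0, F1, F2, G0, G1] : Fin 5 → Frm V) i) v2 :=
      congrArg (fun q => q.2.2) h1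
    have hs : (∑ i, c i • (![F0, F1, F2, G0, G1] : Fin 5 → Frm V) i)
        = ∑ i, ((![c 0, c 1, c 2] : Fin 3 → ZMod 2) i • F i
          + (![c 3, c 4, 0] : Fin 3 → ZMod 2) i • G i) := by
      rw [Fin.sum_univ_five, Fin.sum_univ_three]
      show c 0 • F0 + c 1 • F1 + c 2 • F2 + c 3 • G0 + c 4 • G1
        = c 0 • F0 + c 3 • G0 + (c 1 • F1 + c 4 • G1) + (c 2 • F2 + (0 : ZMod 2) • (G0 + G1))
      rw [zero_smul]
      abel
    refine ⟨![c 0, c 1, c 2], ![c 3, c 4, 0], ?_, ?_⟩
    · rw [← hs]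
      exact io_eq_of z0 z1 z2 e0
    · intro j
      rw [← hs]
      have t1 := io_eq_of z0 z1 z2 e1
      have t2 := io_eq_of z0 z1 z2 e2
      fin_cases j
      · exact t1
      · exact t2
      · show ω (io v0 v1 v2 e1 + io v0 v1 v2 e2)
          = (∑ i, c i • (![F0, F1, F2, G0, G1] : Fin 5 → Frm V) i)
            (io v0 v1 v2 e1 + io v0 v1 v2 e2)
        rw [map_add, map_add, t1, t2]

end Pool.Agent.H89M5.NF
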