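import Pool.Agent.H89M5.Stm

/-!
# REL: a nontrivial relation
-/

set_option autoImplicit false

namespace Pool.Agent.H89M5.REL

open Module Pool.Agent.W622.ETG

section
variable {V : Type} [AddCommGroup V] [Module (ZMod 2) V]

/-- the coordinates of `t_l` -/
def TT (y : P3 → Dl V) (l : P3) : Dl V × Dl V × Dl V := (l.1 • y l, l.2.1 • y l, l.2.2 • y l)

lemma io1 (v0 v1 v2 : V) : io v0 v1 v2 (1, 0, 0) = v0 := by simp [io]
lemma io2 (v0 v1 v2 : V) : io v0 v1 v2 (0, 1, 0) = v1 := by simp [io]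
lemma io3 (v0 v1 v2 : V) : io v0 v1 v2 (0, 0, 1) = v2 := by simp [io]

lemma mem_M {A : Fam V} {v0 v1 v2 : V} {y : P3 → Dl V} (h : Cf A v0 v1 v2 y) {l m : P3}
    (hl : l ≠ 0) (hm : m ≠ 0) : TT y l + TT y m ∈ A.map (rE v0 v1 v2) := by
  obtain ⟨ω, hω, he⟩ := h.mem l m hl hm
  refine ⟨ω, hω, ?_⟩
  have h1 := he (1, 0, 0)
  have h2 := he (0, 1, 0)
  have h3 := he (0, 0, 1)
  rw [io1] at h1
  rw [io2] at h2
  rw [io3] at h3
  have : rE v0 v1 v2 ω = (ω v0, ω v1, ω v2) := rfl
  rw [this, h1, h2, h3]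
  simp [TT, dt]

end

theorem t : Pool.Agent.H89M5.S_REL := by
  intro V _ _ _ A v0 v1 v2 y hC hfr
  classical
  set M := A.map (rE v0 v1 v2) with hM
  set m0 : P3 := (1, 0, 0) with hm0
  have hm0' : m0 ≠ 0 := by rw [hm0]; decide
  set N : Submodule (ZMod 2) (Dl V × Dl V × Dl V) := M ⊔ Submodule.span (ZMod 2) {TT y m0} with hN
  have hfin : finrank (ZMod 2) N ≤ 6 := by
    have h1 : finrank (ZMod 2) N ≤ finrank (ZMod 2) M +
        finrank (ZMod 2) (Submodule.span (ZMod 2) {TT y m0}) :=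
      Submodule.finrank_add_le_finrank_add_finrank _ _
    have h2 : finrank (ZMod 2) (Submodule.span (ZMod 2) {TT y m0}) ≤ 1 := by
      have := finrank_span_le_card (R := ZMod 2) ({TT y m0} : Set (Dl V × Dl V × Dl V))
      simpa using this
    omega
  have hmem : ∀ l : P3, l ≠ 0 → TT y l ∈ N := by
    intro l hl
    have h1 : TT y l + TT y m0 ∈ M := mem_M hC hl hm0'
    have h2 : TT y m0 ∈ Submodule.span (ZMod 2) {TT y m0} := Submodule.mem_span_singleton_self _
    have h3 : TT y l = (TT y l + TT y m0) - TT y m0 := by abel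
    rw [h3]
    exact Submodule.sub_mem _ (Submodule.mem_sup_left h1) (Submodule.mem_sup_right h2)
  let T : {l : P3 // l ≠ 0} → N := fun l => ⟨TT y l.1, hmem l.1 l.2⟩
  have hdep : ¬ LinearIndependent (ZMod 2) T := by
    intro hli
    have h1 := hli.fintype_card_le_finrank
    have h2 : Fintype.card {l : P3 // l ≠ 0} = 7 := by decide
    omega
  rw [Fintype.not_linearIndependent_iff] at hdep
  obtain ⟨g, hg, i, hi⟩ := hdep
  have hg' : ∑ l : {l : P3 // l ≠ 0}, g l • TT y l.1 = 0 := by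
    have := congrArg (N.subtype) hg
    simpa [T, map_sum] using this
  let c : P3 → ZMod 2 := fun l => if h : l ≠ 0 then g ⟨l, h⟩ else 0
  have hc0 : c 0 = 0 := by simp [c]
  have hcs : ∑ l : P3, c l • TT y l = 0 := by
    rw [← Fintype.sum_subtype_add_sum_subtype (fun l : P3 => l ≠ 0)]
    have h1 : ∑ l : {l : P3 // ¬ l ≠ 0}, c l.1 • TT y l.1 = 0 := by
      refine Finset.sum_eq_zero fun l _ => ?_
      have : l.1 = 0 := not_not.1 l.2
      rw [this, hc0, zero_smul]
    rw [h1, add_zero, ← hg']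
    refine Finset.sum_congr rfl fun l _ => ?_
    have : c l.1 = g l := by simp [c, l.2]
    rw [this]
  refine ⟨c, hc0, ?_, ?_⟩
  · intro h
    apply hi
    have := congrFun h i.1
    simpa [c, i.2] using this
  · intro e
    have h1 : ∑ l : P3, (c l * l.1) • y l = 0 := by
      have := congrArg Prod.fst hcs
      simpa [TT, Prod.fst_sum, mul_smul] using this
    have h2 : ∑ l : P3, (c l * l.2.1) • y l = 0 := by
      have := congrArg (fun z => z.2.1) hcs
      simpa [TT, Prod.fst_sum, Prod.snd_sum, mul_smul] using this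
    have h3 : ∑ l : P3, (c l * l.2.2) • y l = 0 := by
      have := congrArg (fun z => z.2.2) hcs
      simpa [TT, Prod.fst_sum, Prod.snd_sum, mul_smul] using this
    have h4 : ∑ l : P3, (c l * dt l e) • y l = e.1 • (∑ l : P3, (c l * l.1) • y l)
        + e.2.1 • (∑ l : P3, (c l * l.2.1) • y l) + e.2.2 • (∑ l : P3, (c l * l.2.2) • y l) := by
      rw [Finset.smul_sum, Finset.smul_sum, Finset.smul_sum, ← Finset.sum_add_distrib,
        ← Finset.sum_add_distrib]
      refine Finset.sum_congr rfl fun l _ => ?_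
      rw [smul_smul, smul_smul, smul_smul, ← add_smul, ← add_smul]
      congr 1
      unfold dt
      ring
    rw [h4, h1, h2, h3]
    simp

end Pool.Agent.H89M5.REL
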