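import Pool.Agent.H89M5.Stm

set_option autoImplicit false

/-!
Project M5, stub SP.
-/

namespace Pool.Agent.H89M5.SP

open Module Pool.Agent.W622.ETG

theorem t : S_SP := by
  intro X _ _ M hfin hfr b hb hli m hm
  have h1 : LinearIndependent (ZMod 2) (fun i : Fin 5 => (⟨b i, hb i⟩ : M)) := by
    rw [Fintype.linearIndependent_iff]
    intro g hg i
    have h0 : ∑ i, g i • b i = 0 := by
      have := congrArg Subtype.val hg
      simpa using this
    exact congrFun (hli g h0) i
  have h2 := h1.fintype_card_le_finrank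
  rw [Fintype.card_fin] at h2
  have h3 : Fintype.card (Fin 5) = finrank (ZMod 2) M := by
    rw [Fintype.card_fin]
    omega
  have h4 := h1.span_eq_top_of_card_eq_finrank' h3
  have h5 : (⟨m, hm⟩ : M) ∈ Submodule.span (ZMod 2) (Set.range (fun i : Fin 5 => (⟨b i, hb i⟩ : M))) := by
    rw [h4]
    trivial
  rw [Submodule.mem_span_range_iff_exists_fun] at h5
  obtain ⟨c, hc⟩ := h5
  refine ⟨c, ?_⟩
  have := congrArg Subtype.val hc
  simpa using this.symm

end Pool.Agent.H89M5.SP
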