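import Pool.Agent.H89M5.NoD
import Pool.Agent.H89M5.CF
import Pool.Agent.H89M5.REL
import Pool.Agent.H89M5.CLS
import Pool.Agent.H89M5.AL
import Pool.Agent.H89M5.BETA
import Pool.Agent.H89M5.NF
import Pool.Agent.H89M5.SP
import Pool.Agent.H89FL.El

set_option autoImplicit false
set_option linter.unusedSectionVars false
set_option linter.unusedTactic false
set_option linter.unreachableTactic false
set_option linter.unnecessarySeqFocus false
set_option linter.unusedSimpArgs false

/-!
Linked families of dimension at most five: the local part.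
-/

namespace Pool.Agent.H89M5

open Module Pool.Agent.W622.ETG Pool.Agent.H89FL
open Pool.Agent.TH188.ETP (In PlaneAt)

section
variable {V : Type} [AddCommGroup V] [Module (ZMod 2) V]
variable {e : V} {A : Fam V} {p : Fin 3 → V} {a : V} {h : Dl V} {x : Fin 3 → Dl V}
  {F G : Fin 3 → Frm V}

theorem fin_fam [Finite V] (A : Fam V) : Finite A := by
  have : Finite (Dl V) := DFunLike.finite _
  have : Finite (Frm V) := DFunLike.finite _
  infer_instance

theorem add_smul_ne {x h : Dl V} (h1 : x ≠ 0) (h2 : x ≠ h) (c : ZMod 2) : x + c • h ≠ 0 := by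
  rcases z01 c with rfl | rfl
  · rw [zero_smul, add_zero]; exact h1
  · rw [one_smul]
    intro h3
    exact h2 (aez.1 h3)

/-- `x i` is not `0` or `h` -/
theorem Nd.x_ne (N : Nd A p a h x F G) (i : Fin 3) (c : ZMod 2) : x i + c • h ≠ 0 := by
  apply add_smul_ne
  · intro hx
    refine N.bad (F i) (N.memF i) ?_ ?_ (N.Fa i)
    · rw [N.Fp, hx, ite_self]
    · rw [N.Fp, hx, ite_self]
  · intro hx
    refine N.bad (F i + G i) (A.add_mem (N.memF i) (N.memG i)) ?_ ?_ ?_
    · rw [LinearMap.add_apply, N.Fp, N.Gp, hx, vadd]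
    · rw [LinearMap.add_apply, N.Fp, N.Gp, hx, vadd]
    · rw [LinearMap.add_apply, N.Fa, N.Ga, add_zero]

/-- independence of the five members -/
theorem Nd.ind5 (N : Nd A p a h x F G) (h0 : h ≠ 0) (c0 c1 c2 d0 d1 : ZMod 2)
    (hc : c0 • F 0 + c1 • F 1 + c2 • F 2 + d0 • G 0 + d1 • G 1 = 0) :
    c0 = 0 ∧ c1 = 0 ∧ c2 = 0 ∧ d0 = 0 ∧ d1 = 0 := by
  have ha := LinearMap.congr_fun hc a
  have hp0 := LinearMap.congr_fun hc (p 0)
  have hp1 := LinearMap.congr_fun hc (p 1)
  simp only [LinearMap.add_apply, LinearMap.smul_apply, N.Fa, N.Ga, N.Fp, N.Gp,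
    LinearMap.zero_apply] at ha hp0 hp1
  simp at ha hp0 hp1
  have hc0 : ∀ c : ZMod 2, c • h = 0 → c = 0 := by
    intro c h3
    rcases smul_eq_zero.1 h3 with h4 | h4
    · exact h4
    · exact absurd h4 h0
  have hs : c0 + c1 + c2 = 0 := hc0 _ (by rw [add_smul, add_smul]; exact ha)
  rcases z01 c0 with rfl | rfl <;> rcases z01 c1 with rfl | rfl <;>
    rcases z01 c2 with rfl | rfl
  · simp only [zero_smul, zero_add] at hp0 hp1
    exact ⟨rfl, rfl, rfl, hc0 _ hp1, hc0 _ hp0⟩
  · exact absurd hs (by decide)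
  · exact absurd hs (by decide)
  · exfalso
    simp only [zero_smul, zero_add, one_smul] at hp1
    exact N.x_ne 2 _ hp1
  · exact absurd hs (by decide)
  · exfalso
    simp only [zero_smul, zero_add, one_smul] at hp0
    exact N.x_ne 2 _ hp0
  · exfalso
    simp only [zero_smul, add_zero, one_smul] at hp0
    exact N.x_ne 1 _ hp0
  · exact absurd hs (by decide)

/-- the members span a family of dimension at most five -/
theorem Nd.gen [Finite V] (N : Nd A p a h x F G) (h0 : h ≠ 0) (h5 : finrank (ZMod 2) A ≤ 5) :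
    ∀ ω ∈ A, ∃ c d : Fin 3 → ZMod 2, ω = ∑ i, (c i • F i + d i • G i) := by
  have hfin : Finite A := fin_fam A
  have h1 := SP.t (Frm V) A hfin h5 ![F 0, F 1, F 2, G 0, G 1] (by
    intro i
    fin_cases i
    · exact N.memF 0
    · exact N.memF 1
    · exact N.memF 2
    · exact N.memG 0
    · exact N.memG 1) (by
    intro c hc
    rw [Fin.sum_univ_five] at hc
    obtain ⟨k0, k1, k2, k3, k4⟩ := N.ind5 h0 (c 0) (c 1) (c 2) (c 3) (c 4) hc
    funext i
    fin_cases i <;> assumption)
  intro ω hω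
  obtain ⟨c, hc⟩ := h1 ω hω
  rw [Fin.sum_univ_five] at hc
  have hc' : ω = c 0 • F 0 + c 1 • F 1 + c 2 • F 2 + c 3 • G 0 + c 4 • G 1 := hc
  refine ⟨![c 0, c 1, c 2], ![c 3, c 4, 0], ?_⟩
  rw [hc', Fin.sum_univ_three]
  show _ = c 0 • F 0 + c 3 • G 0 + (c 1 • F 1 + c 4 • G 1) + (c 2 • F 2 + (0 : ZMod 2) • G 2)
  rw [zero_smul]
  abel

/-- change of `x i` by a multiple of `h` -/
theorem Ns.shift (N : Ns e A p a h x F G) (s : Fin 3 → ZMod 2) :
    Ns e A p a h (fun i => x i + s i • h) (fun i => F i + s i • G i) G where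
  nd := {
    psum := N.nd.psum
    memF := fun i => A.add_mem (N.nd.memF i) (A.smul_mem _ (N.nd.memG i))
    memG := N.nd.memG
    Gsum := N.nd.Gsum
    Fa := fun i => by
      show (F i + s i • G i) a = h
      rw [LinearMap.add_apply, LinearMap.smul_apply, N.nd.Fa, N.nd.Ga, smul_zero, add_zero]
    Ga := N.nd.Ga
    Fp := fun i j => by
      show (F i + s i • G i) (p j) = _
      rw [LinearMap.add_apply, LinearMap.smul_apply, N.nd.Fp, N.nd.Gp]
      by_cases hj : j = i
      · simp [hj]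
      · simp [hj]
    Gp := N.nd.Gp
    bad := N.nd.bad }
  ef := N.ef
  li := N.li
  h0 := N.h0
  gen := by
    intro ω hω
    obtain ⟨c, d, h1⟩ := N.gen ω hω
    refine ⟨c, fun i => d i + c i * s i, ?_⟩
    rw [h1]
    refine Finset.sum_congr rfl fun i _ => ?_
    refine LinearMap.ext fun u => ?_
    simp only [LinearMap.add_apply, LinearMap.smul_apply]
    linear_combination (norm := (match_scalars <;> first | rfl |
      (ring_nf; try reduce_mod_char; try rfl))) (0 : ZMod 2) • (rfl : h = h)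
  no := N.no

/-- the three `x i` are not all congruent modulo `h` -/
theorem Nd.i2 (N : Nd A p a h x F G) (s t : ZMod 2) (h1 : x 0 + x 1 + s • h = 0)
    (h2 : x 0 + x 2 + t • h = 0) : False := by
  refine N.bad (F 0 + F 1 + F 2 + s • G 1 + t • G 2) (A.add_mem (A.add_mem (A.add_mem (A.add_mem
    (N.memF 0) (N.memF 1)) (N.memF 2)) (A.smul_mem _ (N.memG 1))) (A.smul_mem _ (N.memG 2)))
    ?_ ?_ ?_
  · simp only [LinearMap.add_apply, LinearMap.smul_apply, N.Fp, N.Gp]
    simp
    linear_combination (norm := (match_scalars <;> first | rfl |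
      (ring_nf; try reduce_mod_char; try rfl))) (1 : ZMod 2) • h1 + (1 : ZMod 2) • h2
  · simp only [LinearMap.add_apply, LinearMap.smul_apply, N.Fp, N.Gp]
    simp
    linear_combination (norm := (match_scalars <;> first | rfl |
      (ring_nf; try reduce_mod_char; try rfl))) (1 : ZMod 2) • h2
  · simp only [LinearMap.add_apply, LinearMap.smul_apply, N.Fa, N.Ga]
    linear_combination (norm := (match_scalars <;> first | rfl |
      (ring_nf; try reduce_mod_char; try rfl))) (0 : ZMod 2) • h1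

/-- the sum of the `x i` is not in `{0, h}` -/
theorem Ns.i3 (N : Ns e A p a h x F G) (s : ZMod 2) (h1 : x 0 + x 1 + x 2 + s • h = 0) :
    False := by
  have hv : (F 1 + F 2 + s • G 1) (p 0) = F 0 (p 1) := by
    simp only [LinearMap.add_apply, LinearMap.smul_apply, N.nd.Fp, N.nd.Gp]
    simp
    linear_combination (norm := (match_scalars <;> first | rfl |
      (ring_nf; try reduce_mod_char; try rfl))) (1 : ZMod 2) • h1
  obtain ⟨ζ, hζ, h2, h3⟩ := N.li _ (A.add_mem (A.add_mem (N.nd.memF 1) (N.nd.memF 2))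
    (A.smul_mem s (N.nd.memG 1))) _ (N.nd.memF 0) (p 0) (p 1) hv
  rw [hv] at h2 h3
  rw [N.nd.Fp, if_neg (by decide)] at h2 h3
  obtain ⟨c, d, hcd⟩ := N.gen ζ hζ
  rw [Fin.sum_univ_three] at hcd
  have h4 : ζ (p 2) = 0 := by
    have h5 : ζ (p 0 + p 1 + p 2) = 0 := by rw [N.nd.psum, map_zero]
    rw [map_add, map_add, h2, h3, vadd, zero_add] at h5
    exact h5
  rw [hcd] at h2 h4
  simp only [LinearMap.add_apply, LinearMap.smul_apply, N.nd.Fp, N.nd.Gp] at h2 h4
  simp at h2 h4
  rcases z01 (c 0) with k0 | k0 <;> rcases z01 (c 1) with k1 | k1 <;> rw [k0, k1] at h4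
  · rcases z01 (c 2) with k2 | k2 <;> rw [k1, k2] at h2
    · refine N.nd.x_ne 0 (d 1 + d 2) ?_
      linear_combination (norm := (match_scalars <;> first | rfl |
        (ring_nf; try reduce_mod_char; try rfl))) (1 : ZMod 2) • h2
    · refine N.nd.x_ne 1 (s + d 1 + d 2) ?_
      linear_combination (norm := (match_scalars <;> first | rfl |
        (ring_nf; try reduce_mod_char; try rfl))) (1 : ZMod 2) • h2 + (1 : ZMod 2) • h1
  · refine N.nd.x_ne 1 (d 0 + d 1) ?_
    linear_combination (norm := (match_scalars <;> first | rfl |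
      (ring_nf; try reduce_mod_char; try rfl))) (1 : ZMod 2) • h4
  · refine N.nd.x_ne 0 (d 0 + d 1) ?_
    linear_combination (norm := (match_scalars <;> first | rfl |
      (ring_nf; try reduce_mod_char; try rfl))) (1 : ZMod 2) • h4
  · refine N.nd.x_ne 2 (s + d 0 + d 1) ?_
    linear_combination (norm := (match_scalars <;> first | rfl |
      (ring_nf; try reduce_mod_char; try rfl))) (1 : ZMod 2) • h4 + (1 : ZMod 2) • h1

/-- `x 0` and `x 1` congruent modulo `h` -/
theorem Ns.no3 [Finite V] (N : Ns e A p a h x F G) (s : ZMod 2) (h1 : x 0 + x 1 + s • h = 0) :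
    False := by
  have N' := N.shift (fun i => if i = 1 then s else 0)
  refine N'.no2 ⟨?_, ?_⟩
  · simp
    linear_combination (norm := (match_scalars <;> first | rfl |
      (ring_nf; try reduce_mod_char; try rfl))) (1 : ZMod 2) • h1
  · intro c c' d hc
    simp at hc
    rcases z01 c with rfl | rfl <;> rcases z01 c' with rfl | rfl
    · exact ⟨rfl, rfl⟩
    · exfalso
      refine N.nd.x_ne 2 d ?_
      rw [← hc]; simp
    · exfalso
      refine N.nd.x_ne 0 d ?_
      rw [← hc]; simp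
    · exfalso
      refine N.nd.i2 s d h1 ?_
      rw [← hc]; simp

/-- the situation is impossible -/
theorem Ns.no4 [Finite V] (N : Ns e A p a h x F G) : False := by
  by_cases hI : Ind h x
  · exact N.no1 hI
  · unfold Ind at hI
    push Not at hI
    obtain ⟨c0, c1, c2, d, h1, h2⟩ := hI
    rcases z01 c0 with rfl | rfl <;> rcases z01 c1 with rfl | rfl <;>
      rcases z01 c2 with rfl | rfl <;> simp only [zero_smul, one_smul, zero_add, add_zero] at h1
    · exact h2 rfl rfl rfl
    · exact N.nd.x_ne 2 d h1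
    · exact N.nd.x_ne 1 d h1
    · exact (N.perm (Equiv.swap 0 2)).no3 d (by
        show x 2 + x 1 + d • h = 0
        rw [← h1]; abel)
    · exact N.nd.x_ne 0 d h1
    · exact (N.perm (Equiv.swap 1 2)).no3 d h1
    · exact N.no3 d h1
    · exact N.i3 d h1

/-- no bad planes -/
theorem plane5 [Finite V] (hA : EFam e A) (hL : Linked A) (h5 : finrank (ZMod 2) A ≤ 5)
    (hno : ∀ u : V, ∃ ω ∈ A, ω ≠ 0 ∧ ω u = 0) (v0 v1 v2 : V) : PlaneAt A v0 v1 v2 := by
  intro h i0 i1 i2 i3
  by_contra hcon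
  obtain ⟨y, hy⟩ := CF.t V A hL v0 v1 v2 h i0 i1 i2 i3 hcon
  have hr : finrank (ZMod 2) (A.map (rE v0 v1 v2)) ≤ 5 := (Submodule.finrank_map_le _ _).trans h5
  obtain ⟨c, c0, c1, c2⟩ := REL.t V A v0 v1 v2 y hy hr
  obtain ⟨e0, he0, hre⟩ : ∃ e0 : P3, e0 ≠ 0 ∧ Rl y (fun l => dt l e0) := by
    rcases CLS.t V A v0 v1 v2 y hy c c0 c1 c2 with ⟨e0, h1, h2⟩ | ⟨l0, h1, h2⟩
    · refine ⟨e0, h1, ?_⟩
      have : (fun l => dt l e0) = c := funext fun l => (h2 l).symm
      rw [this]; exact c2
    · exact BETA.t SP.t CLS.t V A v0 v1 v2 y hL hy hr c c0 c2 l0 h1 h2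
  obtain ⟨p, a, h', x, F, G, N, -, -, h0⟩ := NF.t SP.t V A v0 v1 v2 y hy hr e0 he0
    (AL.t V y e0 hre)
  exact Ns.no4 (e := e) ⟨N, hA, hL, h0, N.gen h0 h5, hno⟩

end

end Pool.Agent.H89M5
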