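import Pool.Agent.H89M5.Loc
import Pool.Agent.H89FL.Chain

set_option autoImplicit false
set_option linter.unusedSectionVars false

/-!
Linked families of dimension at most five are hereditarily linked.
-/

namespace Pool.Agent.H89M5

open Module Pool.Agent.W622.ETG Pool.Agent.H89FL Pool.Agent.H315R3.ETC
open Pool.Agent.TH188.ETP (In PlaneAt linked_ann mem_list)

universe v

section
variable {V : Type} [AddCommGroup V] [Module (ZMod 2) V] {e : V} {A : Fam V}

/-- a common slot -/
theorem hered_slot [Finite V] (hA : EFam e A) (hL : Linked A) {u : V}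
    (hu : ∀ ω ∈ A, ω u = 0 → ω = 0) : Hered A := by
  have hU : Pool.Agent.H89QU.Uni e u A := ⟨hA, hL, hu⟩
  obtain ⟨-, -, hout, -⟩ := Pool.Agent.W622.ETG.all_parts
  exact hered_of_elem hU.ef hU.li (closed_of_uni hU)
    (hout _ _ _ (Pool.Agent.H89QU.el_of_uni _ _ rfl hU))

theorem linked_ann5 [Finite V] (hA : EFam e A) (hL : Linked A) (h5 : finrank (ZMod 2) A ≤ 5)
    (u : V) : Linked (res A (ann u)) := by
  by_cases hno : ∀ u : V, ∃ ω ∈ A, ω ≠ 0 ∧ ω u = 0
  · exact linked_ann hA hL (plane5 hA hL h5 hno) u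
  · push Not at hno
    obtain ⟨w, hw⟩ := hno
    exact hered_slot hA hL (u := w) (fun ω hω h => by_contra fun h1 => hw ω hω h1 h) _

theorem finrank_mono [Finite V] {A B : Fam V} (h : B ≤ A) :
    finrank (ZMod 2) B ≤ finrank (ZMod 2) A := by
  have := fin_fam A
  exact Submodule.finrank_mono h

theorem linked_list5 [Finite V] (l : List V) : ∀ A : Fam V, EFam e A → Linked A →
    finrank (ZMod 2) A ≤ 5 → Linked (l.foldl (fun B u => res B (ann u)) A) := by
  induction l with
  | nil => intro A _ h _; exact h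
  | cons u l ih =>
    intro A hA hL h5
    exact ih _ (hA.res _) (linked_ann5 hA hL h5 u) ((finrank_mono (res_le A _)).trans h5)

theorem hered5 [Finite V] (hA : EFam e A) (hL : Linked A) (h5 : finrank (ZMod 2) A ≤ 5) :
    Hered A := by
  classical
  intro X
  have : Fintype V := Fintype.ofFinite V
  let l : List V := (Finset.univ.filter (fun b : V => ∀ g ∈ X, g b = 0)).toList
  have hl : ∀ b, b ∈ l ↔ ∀ g ∈ X, g b = 0 := by
    intro b
    simp [l]
  have h1 : l.foldl (fun B u => W622.ETC.res B (ann u)) A = W622.ETC.res A X := by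
    ext ω
    rw [mem_list l A hA ω]
    constructor
    · rintro ⟨h1, h2⟩
      refine ⟨h1, fun y => mem_of_coann fun b hb => ?_⟩
      rw [(hA ω h1).symm, h2 b ((hl b).2 hb)]
      rfl
    · rintro ⟨h1, h2⟩
      refine ⟨h1, fun u hu => ?_⟩
      ext y
      rw [(hA ω h1).symm]
      exact (hl u).1 hu _ (h2 y)
  rw [← h1]
  exact linked_list5 l A hA hL h5

end

theorem card_pow (X : Type) [AddCommGroup X] [Module (ZMod 2) X] (M : Submodule (ZMod 2) X)
    (_ : Finite M) : Nat.card M = 2 ^ finrank (ZMod 2) M := by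
  rw [Module.natCard_eq_pow_finrank (K := ZMod 2), Nat.card_zmod]

section
variable {S : QData} {B : Type v} [AddCommGroup B] {β : S.G → S.G → B}
  [Module (ZMod 2) (Additive S.G)]

theorem pow_le {n : ℕ} (h : 2 ^ n ≤ 32) : n ≤ 5 := by
  by_contra hcon
  have : 2 ^ 6 ≤ 2 ^ n := Nat.pow_le_pow_right (by norm_num) (by omega)
  omega

/-- the dimension of the family of `C` -/
theorem finrank_fam (H : Sys S β) {C : AddSubgroup B} (h0 : C.index ≠ 0) (h32 : C.index ≤ 32) :
    finrank (ZMod 2) (fam H C) ≤ 5 := by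
  classical
  have : Finite (Additive S.G) := H.fin
  have : Finite (fam H C) := fin_fam _
  have hQ : Finite (B ⧸ C) := by
    rw [AddSubgroup.index] at h0
    exact Nat.finite_of_card_ne_zero h0
  let _ : Module (ZMod 2) (B ⧸ C) := AddCommGroup.zmodModule (n := 2) (by
    intro x
    obtain ⟨b, rfl⟩ := QuotientAddGroup.mk_surjective x
    rw [two_smul, ← QuotientAddGroup.mk_add, H.two]
    rfl)
  have hmem : ∀ ω : fam H C, ∃ l : B →+ ZMod 2, (∀ c ∈ C, l c = 0) ∧ ω.1 = frm H l :=
    fun ω => mem_fam.1 ω.2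
  choose l hl1 hl2 using hmem
  let f : fam H C → (B ⧸ C →ₗ[ZMod 2] ZMod 2) := fun ω =>
    AddMonoidHom.toZModLinearMap 2 (QuotientAddGroup.lift C (l ω) (fun c hc => hl1 ω c hc))
  have hf : Function.Injective f := by
    intro ω η h
    apply Subtype.ext
    rw [hl2 ω, hl2 η]
    have h1 : l ω = l η := by
      ext b
      exact LinearMap.congr_fun h (QuotientAddGroup.mk b)
    rw [h1]
  have h1 : Nat.card (fam H C) ≤ Nat.card (B ⧸ C →ₗ[ZMod 2] ZMod 2) := by
    have : Finite (B ⧸ C →ₗ[ZMod 2] ZMod 2) := DFunLike.finite _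
    exact Nat.card_le_card_of_injective f hf
  have h2 : Nat.card (fam H C) = 2 ^ finrank (ZMod 2) (fam H C) :=
    card_pow (Frm (Additive S.G)) (fam H C) (fin_fam _)
  have h3 : Nat.card (B ⧸ C →ₗ[ZMod 2] ZMod 2) = 2 ^ finrank (ZMod 2) (B ⧸ C) := by
    rw [Module.natCard_eq_pow_finrank (K := ZMod 2), Nat.card_zmod]
    congr 1
    exact Subspace.dual_finrank_eq
  have h4 : Nat.card (B ⧸ C) = 2 ^ finrank (ZMod 2) (B ⧸ C) := by
    rw [Module.natCard_eq_pow_finrank (K := ZMod 2), Nat.card_zmod]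
  rw [AddSubgroup.index, h4] at h32
  rw [h2, h3] at h1
  exact pow_le (h1.trans h32)

theorem hered_fam (H : Sys S β) {C : AddSubgroup B} (hL : LinkedG β C) (h0 : C.index ≠ 0)
    (h32 : C.index ≤ 32) : Hered (fam H C) := by
  have : Finite (Additive S.G) := H.fin
  exact hered5 (fam_efam H C) (linked_fam H hL) (finrank_fam H h0 h32)

end

end Pool.Agent.H89M5
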