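import Pool.Agent.H89M5.Stm

set_option autoImplicit false
set_option linter.unusedSectionVars false
set_option linter.unusedTactic false
set_option linter.unreachableTactic false
set_option linter.unnecessarySeqFocus false

/-!
Exclusion of the normal form, part A: the forms `Φ i`, `z i`.
-/

namespace Pool.Agent.H89M5

open Module Pool.Agent.W622.ETG Pool.Agent.H89FL

section
variable {V : Type} [AddCommGroup V] [Module (ZMod 2) V]

/-- the situation: a normal form whose members span the family, and no common slot -/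
structure Ns (e : V) (A : Fam V) (p : Fin 3 → V) (a : V) (h : Dl V) (x : Fin 3 → Dl V)
    (F G : Fin 3 → Frm V) : Prop where
  nd : Nd A p a h x F G
  ef : EFam e A
  li : Linked A
  h0 : h ≠ 0
  gen : ∀ ω ∈ A, ∃ c d : Fin 3 → ZMod 2, ω = ∑ i, (c i • F i + d i • G i)
  no : ∀ u : V, ∃ ω ∈ A, ω ≠ 0 ∧ ω u = 0

/-- `Φ i` -/
def Phi (x : Fin 3 → Dl V) (F G : Fin 3 → Frm V) (i : Fin 3) (y : V) : Dl V :=
  F i y + x i y • G i y

/-- `z i` -/
def zz (e : V) (h : Dl V) (x : Fin 3 → Dl V) (G : Fin 3 → Frm V) (i : Fin 3) (y : V) : Dl V :=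
  x i + (x i y + x i e) • h + x i e • G i y

/-- `f i j` -/
def ff (x : Fin 3 → Dl V) (F G : Fin 3 → Frm V) (i j : Fin 3) (y : V) : Frm V :=
  F i + F j + x i y • G i + x j y • G j

variable {e : V} {A : Fam V} {p : Fin 3 → V} {a : V} {h : Dl V} {x : Fin 3 → Dl V}
  {F G : Fin 3 → Frm V}

theorem Ns.sF (N : Ns e A p a h x F G) (i : Fin 3) (u v : V) : F i u v = F i v u :=
  (N.ef _ (N.nd.memF i)).symm u v

theorem Ns.sG (N : Ns e A p a h x F G) (i : Fin 3) (u v : V) : G i u v = G i v u :=
  (N.ef _ (N.nd.memG i)).symm u v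

theorem Ns.hp (N : Ns e A p a h x F G) (j : Fin 3) : h (p j) = 0 := by
  have h1 := N.sF j a (p j)
  rw [N.nd.Fa, N.nd.Fp, if_pos rfl] at h1
  exact h1

theorem Ns.ha (N : Ns e A p a h x F G) : h a = 0 := by
  have h1 := N.sG 0 (p 1) a
  rw [N.nd.Ga, N.nd.Gp, if_neg (by decide)] at h1
  exact h1

theorem ex_ne (i : Fin 3) : ∃ j : Fin 3, j ≠ i := by
  revert i; decide

theorem Ns.xa (N : Ns e A p a h x F G) (i : Fin 3) : x i a = 0 := by
  obtain ⟨j, hj⟩ := ex_ne i
  have h1 := N.sF i (p j) a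
  rw [N.nd.Fp, if_neg hj, N.nd.Fa, N.hp] at h1
  exact h1

theorem Ns.xpi (N : Ns e A p a h x F G) (i : Fin 3) : x i (p i) = 0 := by
  obtain ⟨j, hj⟩ := ex_ne i
  have h1 := N.sF i (p j) (p i)
  rw [N.nd.Fp, if_neg hj, N.nd.Fp, if_pos rfl] at h1
  exact h1

theorem Ns.xp (N : Ns e A p a h x F G) {i j : Fin 3} (hj : j ≠ i) : x i (p j) = x i e := by
  have h1 := (N.ef _ (N.nd.memF i)).sq (p j)
  rw [N.nd.Fp, if_neg hj] at h1
  exact h1

theorem Ns.h_add (N : Ns e A p a h x F G) (j : Fin 3) (y : V) : h (y + p j) = h y := by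
  rw [map_add, N.hp, add_zero]

theorem Ns.phi_add (N : Ns e A p a h x F G) (i j : Fin 3) (y : V) :
    Phi x F G i (y + p j) = Phi x F G i y + (if j = i then 0 else zz e h x G i y) := by
  unfold Phi zz
  by_cases hj : j = i
  · subst hj
    rw [map_add, map_add, map_add, N.nd.Fp, N.nd.Gp, N.xpi]
    simp
  · rw [map_add, map_add, map_add, N.nd.Fp, N.nd.Gp, N.xp hj]
    simp only [if_neg hj]
    linear_combination (norm := (match_scalars <;> first | rfl |
      (ring_nf; try reduce_mod_char; try rfl))) (0 : ZMod 2) • (rfl : h = h)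

theorem Ns.zz_add (N : Ns e A p a h x F G) (i j : Fin 3) (y : V) :
    zz e h x G i (y + p j) = zz e h x G i y := by
  unfold zz
  by_cases hj : j = i
  · subst hj
    rw [map_add, map_add, N.nd.Gp, N.xpi]
    simp
  · rw [map_add, map_add, N.nd.Gp, N.xp hj]
    simp only [if_neg hj]
    have h1 : x i e * x i e = x i e := by
      rcases z01 (x i e) with h | h <;> rw [h] <;> rfl
    linear_combination (norm := (match_scalars <;> first | rfl |
      (ring_nf; try reduce_mod_char; try rfl))) (0 : ZMod 2) • (rfl : h = h)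

theorem Ns.l0 (N : Ns e A p a h x F G) {y : V} (hy : h y = 1) {ω : Frm V} (hω : ω ∈ A)
    (h0 : ω y = 0) : ω = 0 ∨ (ω = ff x F G 0 1 y ∧ Phi x F G 0 y = Phi x F G 1 y) ∨
      (ω = ff x F G 0 2 y ∧ Phi x F G 0 y = Phi x F G 2 y) ∨
      (ω = ff x F G 1 2 y ∧ Phi x F G 1 y = Phi x F G 2 y) := by
  obtain ⟨c, d, hcd⟩ := N.gen ω hω
  rw [Fin.sum_univ_three] at hcd
  have hs : ∀ v, ω v y = 0 := fun v => by
    rw [(N.ef ω hω).symm, h0]; rfl
  have ea := hs a
  rw [hcd] at ea
  simp only [LinearMap.add_apply, LinearMap.smul_apply, N.nd.Fa, N.nd.Ga, hy,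
    LinearMap.zero_apply, smul_eq_mul, mul_one, mul_zero, add_zero] at ea
  have e0 := hs (p 0)
  have e1 := hs (p 1)
  rw [hcd] at e0 e1
  simp only [LinearMap.add_apply, LinearMap.smul_apply, N.nd.Fp, N.nd.Gp, hy] at e0 e1
  simp [hy] at e0 e1
  have hG := N.nd.Gsum
  have t2 : ∀ u v : ZMod 2, u + v = 0 → v = u := by decide
  have hd1 : d 1 = c 1 * x 1 y + (c 0 * x 0 y + d 0) := by
    have h1 := t2 _ _ e0
    have h2 := t2 _ _ e1
    linear_combination (exp := 1) h2 - h1 - (c 1 * x 1 y) * (CharTwo.two_eq_zero (R := ZMod 2))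
  have hd2 : d 2 = c 2 * x 2 y + (c 0 * x 0 y + d 0) := by
    have h2 := t2 _ _ e1
    linear_combination (exp := 1) h2 - (c 2 * x 2 y) * (CharTwo.two_eq_zero (R := ZMod 2))
  have key : ω = c 0 • (F 0 + x 0 y • G 0) + c 1 • (F 1 + x 1 y • G 1) +
      c 2 • (F 2 + x 2 y • G 2) := by
    rw [hcd, hd1, hd2]
    refine LinearMap.ext fun u => ?_
    have hu : G 0 u + G 1 u + G 2 u = 0 := LinearMap.congr_fun hG u
    simp only [LinearMap.add_apply, LinearMap.smul_apply]
    linear_combination (norm := (match_scalars <;> first | rfl |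
      (ring_nf; try reduce_mod_char; try rfl))) (c 0 * x 0 y + d 0) • hu
  have hf : ∀ i j, ω = ff x F G i j y → Phi x F G i y = Phi x F G j y := by
    intro i j hij
    rw [hij] at h0
    unfold ff at h0
    simp only [LinearMap.add_apply, LinearMap.smul_apply] at h0
    unfold Phi
    linear_combination (norm := (match_scalars <;> first | rfl |
      (ring_nf; try reduce_mod_char; try rfl))) (1 : ZMod 2) • h0
  rcases z01 (c 0) with h1 | h1 <;> rcases z01 (c 1) with h2 | h2 <;>
    rcases z01 (c 2) with h3 | h3 <;> rw [h1, h2, h3] at key ea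
  · left
    rw [key]; simp
  · exact absurd ea (by decide)
  · exact absurd ea (by decide)
  · right; right; right
    have : ω = ff x F G 1 2 y := by
      rw [key]; unfold ff
      refine LinearMap.ext fun u => ?_
      simp only [LinearMap.add_apply, LinearMap.smul_apply]
      linear_combination (norm := (match_scalars <;> first | rfl |
        (ring_nf; try reduce_mod_char; try rfl))) (0 : ZMod 2) • (rfl : h = h)
    exact ⟨this, hf _ _ this⟩
  · exact absurd ea (by decide)
  · right; right; left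
    have : ω = ff x F G 0 2 y := by
      rw [key]; unfold ff
      refine LinearMap.ext fun u => ?_
      simp only [LinearMap.add_apply, LinearMap.smul_apply]
      linear_combination (norm := (match_scalars <;> first | rfl |
        (ring_nf; try reduce_mod_char; try rfl))) (0 : ZMod 2) • (rfl : h = h)
    exact ⟨this, hf _ _ this⟩
  · right; left
    have : ω = ff x F G 0 1 y := by
      rw [key]; unfold ff
      refine LinearMap.ext fun u => ?_
      simp only [LinearMap.add_apply, LinearMap.smul_apply]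
      linear_combination (norm := (match_scalars <;> first | rfl |
        (ring_nf; try reduce_mod_char; try rfl))) (0 : ZMod 2) • (rfl : h = h)
    exact ⟨this, hf _ _ this⟩
  · exact absurd ea (by decide)

/-- the condition (C) -/
theorem Ns.cc (N : Ns e A p a h x F G) {y : V} (hy : h y = 1) :
    Phi x F G 0 y = Phi x F G 1 y ∨ Phi x F G 0 y = Phi x F G 2 y ∨
      Phi x F G 1 y = Phi x F G 2 y := by
  obtain ⟨ω, hω, h0, h1⟩ := N.no y
  rcases N.l0 hy hω h1 with h2 | h2 | h2 | h2
  · exact absurd h2 h0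
  · exact Or.inl h2.2
  · exact Or.inr (Or.inl h2.2)
  · exact Or.inr (Or.inr h2.2)

/-- linkage of `y` and `q` -/
theorem Ns.lk (N : Ns e A p a h x F G) {y q : V} (hy : h y = 1) {ω η : Frm V} (hω : ω ∈ A)
    (hη : η ∈ A) (h1 : ω y = η q) : ω q = ω y ∨
      (Phi x F G 0 y = Phi x F G 1 y ∧ ω q + ff x F G 0 1 y q = ω y) ∨
      (Phi x F G 0 y = Phi x F G 2 y ∧ ω q + ff x F G 0 2 y q = ω y) ∨
      (Phi x F G 1 y = Phi x F G 2 y ∧ ω q + ff x F G 1 2 y q = ω y) := by
  obtain ⟨ζ, hζ, h2, h3⟩ := N.li ω hω η hη y q h1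
  have h4 : (ω + ζ) y = 0 := by rw [LinearMap.add_apply, h2, vadd]
  have hz : ∀ f : Frm V, ω + ζ = f → ω q + f q = ω y := by
    intro f hf
    rw [← hf, LinearMap.add_apply, h3, ← add_assoc, vadd, zero_add]
  rcases N.l0 hy (A.add_mem hω hζ) h4 with h5 | ⟨h5, h6⟩ | ⟨h5, h6⟩ | ⟨h5, h6⟩
  · left
    have := hz _ h5
    rwa [LinearMap.zero_apply, add_zero] at this
  · exact Or.inr (Or.inl ⟨h6, hz _ h5⟩)
  · exact Or.inr (Or.inr (Or.inl ⟨h6, hz _ h5⟩))
  · exact Or.inr (Or.inr (Or.inr ⟨h6, hz _ h5⟩))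

/-- permutations -/
theorem Ns.perm (N : Ns e A p a h x F G) (s : Equiv.Perm (Fin 3)) :
    Ns e A (p ∘ s) a h (x ∘ s) (F ∘ s) (G ∘ s) where
  nd := {
    psum := by
      have h1 := Equiv.sum_comp s p
      rw [Fin.sum_univ_three, Fin.sum_univ_three, N.nd.psum] at h1
      exact h1
    memF := fun i => N.nd.memF _
    memG := fun i => N.nd.memG _
    Gsum := by
      have h1 := Equiv.sum_comp s G
      rw [Fin.sum_univ_three, Fin.sum_univ_three, N.nd.Gsum] at h1
      exact h1
    Fa := fun i => N.nd.Fa _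
    Ga := fun i => N.nd.Ga _
    Fp := fun i j => by
      show F (s i) (p (s j)) = _
      rw [N.nd.Fp]
      simp
    Gp := fun i j => by
      show G (s i) (p (s j)) = _
      rw [N.nd.Gp]
      simp
    bad := by
      intro ω hω h0 h1
      have hall : ω (p 0) = 0 ∧ ω (p 1) = 0 := by
        have h2 : ω (p 0) + ω (p 1) + ω (p 2) = 0 := by
          rw [← map_add, ← map_add, N.nd.psum, map_zero]
        have h3 : ∀ i, i = s 0 ∨ i = s 1 ∨ i = s 2 := by
          intro i
          obtain ⟨j, rfl⟩ := s.surjective i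
          fin_cases j
          · exact Or.inl rfl
          · exact Or.inr (Or.inl rfl)
          · exact Or.inr (Or.inr rfl)
        have h4 : ω (p (s 2)) = 0 := by
          have h5 : ω (p (s 0)) + ω (p (s 1)) + ω (p (s 2)) = 0 := by
            have h6 := Equiv.sum_comp s (fun i => ω (p i))
            rw [Fin.sum_univ_three, Fin.sum_univ_three, h2] at h6
            exact h6
          rw [Function.comp_apply] at h0 h1
          rw [h0, h1, zero_add, zero_add] at h5
          exact h5
        constructor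
        · rcases h3 0 with h5 | h5 | h5 <;> rw [h5] <;> assumption
        · rcases h3 1 with h5 | h5 | h5 <;> rw [h5] <;> assumption
      exact N.nd.bad ω hω hall.1 hall.2 }
  ef := N.ef
  li := N.li
  h0 := N.h0
  gen := by
    intro ω hω
    obtain ⟨c, d, h1⟩ := N.gen ω hω
    refine ⟨c ∘ s, d ∘ s, ?_⟩
    rw [h1]
    exact (Equiv.sum_comp s (fun i => c i • F i + d i • G i)).symm
  no := N.no

end

end Pool.Agent.H89M5
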