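import Pool.Agent.H89M5.NoA

set_option autoImplicit false
set_option linter.unusedSectionVars false
set_option linter.unusedTactic false
set_option linter.unreachableTactic false
set_option linter.unnecessarySeqFocus false
set_option linter.unusedSimpArgs false

/-!
Exclusion of the normal form, part B: `h, x 0, x 1, x 2` independent.
-/

namespace Pool.Agent.H89M5

open Module Pool.Agent.W622.ETG Pool.Agent.H89FL

section
variable {M : Type} [AddCommGroup M] [Module (ZMod 2) M]

/-- the conclusion of the combinatorial lemma -/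
def Zc (z0 z1 z2 : M) : Prop := z0 = 0 ∨ z1 = 0 ∨ z2 = 0 ∨ z0 = z1 ∨ z0 = z2 ∨ z1 = z2

theorem comb0 {D z0 z1 z2 : M} (h0 : z1 = 0 ∨ D = z2 ∨ D = z1 + z2)
    (h1 : z0 = 0 ∨ D = z0 + z2 ∨ D = z2) (h2 : z0 = z1 ∨ D = z0 ∨ D = z1) : Zc z0 z1 z2 := by
  unfold Zc
  rcases h2 with h2 | h2 | h2
  · tauto
  · rcases h1 with h1 | h1 | h1
    · tauto
    · rw [h2] at h1
      have : z2 = 0 := by simpa using h1.symm
      tauto
    · rw [h2] at h1; tauto
  · rcases h0 with h0 | h0 | h0
    · tauto
    · rw [h2] at h0; tauto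
    · rw [h2] at h0
      have : z2 = 0 := by simpa using h0.symm
      tauto

end

section
variable {V : Type} [AddCommGroup V] [Module (ZMod 2) V]
variable {e : V} {A : Fam V} {p : Fin 3 → V} {a : V} {h : Dl V} {x : Fin 3 → Dl V}
  {F G : Fin 3 → Frm V}

/-- (C) at `y + p j` -/
theorem Ns.cc' (N : Ns e A p a h x F G) {y : V} (hy : h y = 1) (j : Fin 3) :
    Phi x F G 0 y + (if j = 0 then 0 else zz e h x G 0 y) =
        Phi x F G 1 y + (if j = 1 then 0 else zz e h x G 1 y) ∨
      Phi x F G 0 y + (if j = 0 then 0 else zz e h x G 0 y) =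
        Phi x F G 2 y + (if j = 2 then 0 else zz e h x G 2 y) ∨
      Phi x F G 1 y + (if j = 1 then 0 else zz e h x G 1 y) =
        Phi x F G 2 y + (if j = 2 then 0 else zz e h x G 2 y) := by
  have h1 := N.cc (y := y + p j) (by rw [N.h_add]; exact hy)
  rw [N.phi_add, N.phi_add, N.phi_add] at h1
  exact h1

theorem Ns.comb1 (N : Ns e A p a h x F G) {y : V} (hy : h y = 1)
    (h01 : Phi x F G 0 y = Phi x F G 1 y) :
    Zc (zz e h x G 0 y) (zz e h x G 1 y) (zz e h x G 2 y) := by
  have c0 := N.cc' hy 0
  have c1 := N.cc' hy 1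
  have c2 := N.cc' hy 2
  rw [← h01] at c0 c1 c2
  simp only [Fin.isValue, if_true, reduceIte, add_zero, one_ne_zero, zero_ne_one,
    Fin.reduceEq] at c0 c1 c2
  generalize zz e h x G 0 y = z0 at *
  generalize zz e h x G 1 y = z1 at *
  generalize zz e h x G 2 y = z2 at *
  generalize Phi x F G 0 y = P at *
  generalize Phi x F G 2 y = Q at *
  refine comb0 (D := P + Q) ?_ ?_ ?_
  · rcases c0 with c | c | c
    · left; linear_combination (norm := (match_scalars <;> first | rfl |
        (ring_nf; try reduce_mod_char; try rfl))) (1 : ZMod 2) • c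
    · right; left; linear_combination (norm := (match_scalars <;> first | rfl |
        (ring_nf; try reduce_mod_char; try rfl))) (1 : ZMod 2) • c
    · right; right; linear_combination (norm := (match_scalars <;> first | rfl |
        (ring_nf; try reduce_mod_char; try rfl))) (1 : ZMod 2) • c
  · rcases c1 with c | c | c
    · left; linear_combination (norm := (match_scalars <;> first | rfl |
        (ring_nf; try reduce_mod_char; try rfl))) (1 : ZMod 2) • c
    · right; left; linear_combination (norm := (match_scalars <;> first | rfl |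
        (ring_nf; try reduce_mod_char; try rfl))) (1 : ZMod 2) • c
    · right; right; linear_combination (norm := (match_scalars <;> first | rfl |
        (ring_nf; try reduce_mod_char; try rfl))) (1 : ZMod 2) • c
  · rcases c2 with c | c | c
    · left; linear_combination (norm := (match_scalars <;> first | rfl |
        (ring_nf; try reduce_mod_char; try rfl))) (1 : ZMod 2) • c
    · right; left; linear_combination (norm := (match_scalars <;> first | rfl |
        (ring_nf; try reduce_mod_char; try rfl))) (1 : ZMod 2) • c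
    · right; right; linear_combination (norm := (match_scalars <;> first | rfl |
        (ring_nf; try reduce_mod_char; try rfl))) (1 : ZMod 2) • c

theorem Ns.comb (N : Ns e A p a h x F G) {y : V} (hy : h y = 1) :
    Zc (zz e h x G 0 y) (zz e h x G 1 y) (zz e h x G 2 y) := by
  rcases N.cc hy with h1 | h1 | h1
  · exact N.comb1 hy h1
  · have h2 := (N.perm (Equiv.swap 1 2)).comb1 hy h1
    have h3 : Zc (zz e h x G 0 y) (zz e h x G 2 y) (zz e h x G 1 y) := h2
    unfold Zc at h3 ⊢
    rcases h3 with h | h | h | h | h | h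
    · exact Or.inl h
    · exact Or.inr (Or.inr (Or.inl h))
    · exact Or.inr (Or.inl h)
    · exact Or.inr (Or.inr (Or.inr (Or.inr (Or.inl h))))
    · exact Or.inr (Or.inr (Or.inr (Or.inl h)))
    · exact Or.inr (Or.inr (Or.inr (Or.inr (Or.inr h.symm))))
  · have h2 := (N.perm (Equiv.swap 0 2)).comb1 hy h1.symm
    have h3 : Zc (zz e h x G 2 y) (zz e h x G 1 y) (zz e h x G 0 y) := h2
    unfold Zc at h3 ⊢
    rcases h3 with h | h | h | h | h | h
    · exact Or.inr (Or.inr (Or.inl h))
    · exact Or.inr (Or.inl h)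
    · exact Or.inl h
    · exact Or.inr (Or.inr (Or.inr (Or.inr (Or.inr h.symm))))
    · exact Or.inr (Or.inr (Or.inr (Or.inr (Or.inl h.symm))))
    · exact Or.inr (Or.inr (Or.inr (Or.inl h.symm)))

/-- independence -/
def Ind (h : Dl V) (x : Fin 3 → Dl V) : Prop :=
  ∀ c0 c1 c2 d : ZMod 2, c0 • x 0 + c1 • x 1 + c2 • x 2 + d • h = 0 → c0 = 0 ∧ c1 = 0 ∧ c2 = 0

end

end Pool.Agent.H89M5
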