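import Pool.Agent.H89M5.NoB

set_option autoImplicit false
set_option linter.unusedSectionVars false
set_option linter.unusedTactic false
set_option linter.unreachableTactic false
set_option linter.unnecessarySeqFocus false
set_option linter.unusedSimpArgs false

/-!
Exclusion of the normal form, part C: `h, x 0, x 1, x 2` independent.
-/

namespace Pool.Agent.H89M5

open Module Pool.Agent.W622.ETG Pool.Agent.H89FL

section
variable {V : Type} [AddCommGroup V] [Module (ZMod 2) V]
variable {e : V} {A : Fam V} {p : Fin 3 → V} {a : V} {h : Dl V} {x : Fin 3 → Dl V}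
  {F G : Fin 3 → Frm V}

theorem Ind.p12 (hI : Ind h x) : Ind h (x ∘ Equiv.swap (1 : Fin 3) 2) := by
  intro c0 c1 c2 d hc
  have h1 : c0 • x 0 + c1 • x 2 + c2 • x 1 + d • h = 0 := hc
  have h2 := hI c0 c2 c1 d (by rw [← h1]; abel)
  exact ⟨h2.1, h2.2.2, h2.2.1⟩

theorem Ind.p01 (hI : Ind h x) : Ind h (x ∘ Equiv.swap (0 : Fin 3) 1) := by
  intro c0 c1 c2 d hc
  have h1 : c0 • x 1 + c1 • x 0 + c2 • x 2 + d • h = 0 := hc
  have h2 := hI c1 c0 c2 d (by rw [← h1]; abel)
  exact ⟨h2.2.1, h2.1, h2.2.2⟩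

theorem Ind.p02 (hI : Ind h x) : Ind h (x ∘ Equiv.swap (0 : Fin 3) 2) := by
  intro c0 c1 c2 d hc
  have h1 : c0 • x 2 + c1 • x 1 + c2 • x 0 + d • h = 0 := hc
  have h2 := hI c2 c1 c0 d (by rw [← h1]; abel)
  exact ⟨h2.2.2, h2.2.1, h2.1⟩

theorem z10 : ¬ ((1 : ZMod 2) = 0) := by decide

/-- `z 0 = 0` implies `Φ 0 = Φ 1` -/
theorem Ns.z0a (N : Ns e A p a h x F G) (hI : Ind h x) {y : V} (hy : h y = 1)
    (hz : zz e h x G 0 y = 0) : x 0 e = 1 ∧ Phi x F G 0 y = Phi x F G 1 y := by
  unfold zz at hz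
  have hk : x 0 e = 1 := by
    rcases z01 (x 0 e) with hk | hk
    · rw [hk, zero_smul, add_zero, add_zero] at hz
      have h1 := hI 1 0 0 (x 0 y) (by rw [← hz]; simp)
      exact absurd h1.1 z10
    · exact hk
  refine ⟨hk, ?_⟩
  rw [hk] at hz
  have hG : G 0 y = (F 0 + (x 0 y + 1) • G 0) (p 1) := by
    rw [LinearMap.add_apply, LinearMap.smul_apply, N.nd.Fp, N.nd.Gp, if_neg (by decide),
      if_neg (by decide)]
    linear_combination (norm := (match_scalars <;> first | rfl |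
      (ring_nf; try reduce_mod_char; try rfl))) (1 : ZMod 2) • hz
  have hG' : G 0 y = x 0 + (x 0 y + 1) • h := by
    linear_combination (norm := (match_scalars <;> first | rfl |
      (ring_nf; try reduce_mod_char; try rfl))) (1 : ZMod 2) • hz
  rcases N.lk hy (N.nd.memG 0) (A.add_mem (N.nd.memF 0) (A.smul_mem _ (N.nd.memG 0))) hG with
    h1 | ⟨h1, -⟩ | ⟨-, h1⟩ | ⟨-, h1⟩
  · rw [hG', N.nd.Gp, if_neg (by decide)] at h1
    have h2 := hI 1 0 0 (x 0 y) (by
      linear_combination (norm := (match_scalars <;> first | rfl |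
        (ring_nf; try reduce_mod_char; try rfl))) (1 : ZMod 2) • h1)
    exact absurd h2.1 z10
  · exact h1
  · exfalso
    rw [hG'] at h1
    unfold ff at h1
    simp only [LinearMap.add_apply, LinearMap.smul_apply, N.nd.Gp, N.nd.Fp] at h1
    simp at h1
    have h2 := hI 0 0 1 (x 2 y) (by
      linear_combination (norm := (match_scalars <;> first | rfl |
        (ring_nf; try reduce_mod_char; try rfl))) (1 : ZMod 2) • h1)
    exact absurd h2.2.2 z10
  · exfalso
    rw [hG'] at h1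
    unfold ff at h1
    simp only [LinearMap.add_apply, LinearMap.smul_apply, N.nd.Gp, N.nd.Fp] at h1
    simp at h1
    have h2 := hI 1 0 1 (x 0 y + x 2 y) (by
      linear_combination (norm := (match_scalars <;> first | rfl |
        (ring_nf; try reduce_mod_char; try rfl))) (1 : ZMod 2) • h1)
    exact absurd h2.1 z10

theorem Ns.z0b (N : Ns e A p a h x F G) (hI : Ind h x) {y : V} (hy : h y = 1)
    (hz : zz e h x G 0 y = 0) : Phi x F G 0 y = Phi x F G 2 y :=
  ((N.perm (Equiv.swap 1 2)).z0a hI.p12 hy hz).2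

theorem Ns.z0 (N : Ns e A p a h x F G) (hI : Ind h x) {y : V} (hy : h y = 1) :
    zz e h x G 0 y ≠ 0 := by
  intro hz
  have h1 := (N.z0a hI hy hz).2
  have h2 := N.z0b hI hy hz
  have hy' : h (y + p 0) = 1 := by rw [N.h_add]; exact hy
  have hz' : zz e h x G 0 (y + p 0) = 0 := by rw [N.zz_add]; exact hz
  have h3 := (N.z0a hI hy' hz').2
  have h4 := N.z0b hI hy' hz'
  rw [N.phi_add, N.phi_add, if_pos rfl, if_neg (by decide), add_zero, ← h1] at h3
  rw [N.phi_add, N.phi_add, if_pos rfl, if_neg (by decide), add_zero, ← h2] at h4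
  have z1 : zz e h x G 1 y = 0 := by simpa using h3.symm
  have z2 : zz e h x G 2 y = 0 := by simpa using h4.symm
  have k0 := (N.z0a hI hy hz).1
  have k1 : x 1 e = 1 := ((N.perm (Equiv.swap 0 1)).z0a hI.p01 hy z1).1
  have k2 : x 2 e = 1 := ((N.perm (Equiv.swap 0 2)).z0a hI.p02 hy z2).1
  unfold zz at hz z1 z2
  rw [k0] at hz
  rw [k1] at z1
  rw [k2] at z2
  have hg : G 0 y + G 1 y + G 2 y = 0 := LinearMap.congr_fun N.nd.Gsum y
  have h5 := hI 1 1 1 (x 0 y + x 1 y + x 2 y + 1) (by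
    linear_combination (norm := (match_scalars <;> first | rfl |
      (ring_nf; try reduce_mod_char; try rfl))) (1 : ZMod 2) • hz + (1 : ZMod 2) • z1 +
        (1 : ZMod 2) • z2 + (1 : ZMod 2) • hg)
  exact absurd h5.1 z10

theorem Ns.z1 (N : Ns e A p a h x F G) (hI : Ind h x) {y : V} (hy : h y = 1) :
    zz e h x G 1 y ≠ 0 := (N.perm (Equiv.swap 0 1)).z0 hI.p01 hy

theorem Ns.z2 (N : Ns e A p a h x F G) (hI : Ind h x) {y : V} (hy : h y = 1) :
    zz e h x G 2 y ≠ 0 := (N.perm (Equiv.swap 0 2)).z0 hI.p02 hy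

/-- `z 0 = z 1` implies `Φ 0 = Φ 1` -/
theorem Ns.e01a (N : Ns e A p a h x F G) (hI : Ind h x) {y : V} (hy : h y = 1)
    (hz : zz e h x G 0 y = zz e h x G 1 y) : Phi x F G 0 y = Phi x F G 1 y := by
  unfold zz at hz
  have hG' : (x 0 e • G 0 + x 1 e • G 1) y =
      x 0 + x 1 + (x 0 y + x 0 e + x 1 y + x 1 e) • h := by
    simp only [LinearMap.add_apply, LinearMap.smul_apply]
    linear_combination (norm := (match_scalars <;> first | rfl |
      (ring_nf; try reduce_mod_char; try rfl))) (1 : ZMod 2) • hz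
  have hG : (x 0 e • G 0 + x 1 e • G 1) y =
      (F 0 + F 1 + (x 0 y + x 0 e + x 1 y + x 1 e) • G 0) (p 2) := by
    rw [hG']
    simp only [LinearMap.add_apply, LinearMap.smul_apply, N.nd.Gp, N.nd.Fp]
    simp
  rcases N.lk hy (A.add_mem (A.smul_mem _ (N.nd.memG 0)) (A.smul_mem _ (N.nd.memG 1)))
    (A.add_mem (A.add_mem (N.nd.memF 0) (N.nd.memF 1)) (A.smul_mem _ (N.nd.memG 0))) hG with
    h1 | ⟨h1, -⟩ | ⟨-, h1⟩ | ⟨-, h1⟩
  · exfalso
    rw [hG'] at h1
    simp only [LinearMap.add_apply, LinearMap.smul_apply, N.nd.Gp, N.nd.Fp] at h1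
    simp at h1
    have h2 := hI 1 1 0 (x 0 y + x 1 y) (by
      linear_combination (norm := (match_scalars <;> first | rfl |
        (ring_nf; try reduce_mod_char; try rfl))) (1 : ZMod 2) • h1)
    exact absurd h2.1 z10
  · exact h1
  · exfalso
    rw [hG'] at h1
    unfold ff at h1
    simp only [LinearMap.add_apply, LinearMap.smul_apply, N.nd.Gp, N.nd.Fp] at h1
    simp at h1
    have h2 := hI 0 1 0 (x 1 y) (by
      linear_combination (norm := (match_scalars <;> first | rfl |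
        (ring_nf; try reduce_mod_char; try rfl))) (1 : ZMod 2) • h1)
    exact absurd h2.2.1 z10
  · exfalso
    rw [hG'] at h1
    unfold ff at h1
    simp only [LinearMap.add_apply, LinearMap.smul_apply, N.nd.Gp, N.nd.Fp] at h1
    simp at h1
    have h2 := hI 1 0 0 (x 0 y) (by
      linear_combination (norm := (match_scalars <;> first | rfl |
        (ring_nf; try reduce_mod_char; try rfl))) (1 : ZMod 2) • h1)
    exact absurd h2.1 z10

theorem Ns.e01 (N : Ns e A p a h x F G) (hI : Ind h x) {y : V} (hy : h y = 1) :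
    zz e h x G 0 y ≠ zz e h x G 1 y := by
  intro hz
  have h1 := N.e01a hI hy hz
  have hy' : h (y + p 0) = 1 := by rw [N.h_add]; exact hy
  have h3 := N.e01a hI hy' (by rw [N.zz_add, N.zz_add]; exact hz)
  rw [N.phi_add, N.phi_add, if_pos rfl, if_neg (by decide), add_zero, ← h1] at h3
  have z1 : zz e h x G 1 y = 0 := by simpa using h3.symm
  exact N.z1 hI hy z1

theorem Ns.e02 (N : Ns e A p a h x F G) (hI : Ind h x) {y : V} (hy : h y = 1) :
    zz e h x G 0 y ≠ zz e h x G 2 y := (N.perm (Equiv.swap 1 2)).e01 hI.p12 hy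

theorem Ns.e12 (N : Ns e A p a h x F G) (hI : Ind h x) {y : V} (hy : h y = 1) :
    zz e h x G 1 y ≠ zz e h x G 2 y := fun h =>
  (N.perm (Equiv.swap 0 2)).e01 hI.p02 hy h.symm

/-- the independent case is impossible -/
theorem Ns.no1 (N : Ns e A p a h x F G) (hI : Ind h x) : False := by
  obtain ⟨y, hy⟩ : ∃ y, h y = 1 := by
    by_contra hcon
    push Not at hcon
    apply N.h0
    ext y
    rcases z01 (h y) with h1 | h1
    · exact h1
    · exact absurd h1 (hcon y)
  rcases N.comb hy with h1 | h1 | h1 | h1 | h1 | h1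
  · exact N.z0 hI hy h1
  · exact N.z1 hI hy h1
  · exact N.z2 hI hy h1
  · exact N.e01 hI hy h1
  · exact N.e02 hI hy h1
  · exact N.e12 hI hy h1

end

end Pool.Agent.H89M5
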