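import Pool.Agent.H89M5.NoC

set_option autoImplicit false
set_option linter.unusedSectionVars false
set_option linter.unusedTactic false
set_option linter.unreachableTactic false
set_option linter.unnecessarySeqFocus false
set_option linter.unusedSimpArgs false

/-!
Exclusion of the normal form, part D: `x 0 = x 1`.
-/

namespace Pool.Agent.H89M5

open Module Pool.Agent.W622.ETG Pool.Agent.H89FL

section
variable {V : Type} [AddCommGroup V] [Module (ZMod 2) V]
variable {e : V} {A : Fam V} {p : Fin 3 → V} {a : V} {h : Dl V} {x : Fin 3 → Dl V}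
  {F G : Fin 3 → Frm V}

theorem exists_sep' [Finite V] {φ ψ : Dl V} (h0 : ψ ≠ 0) (h1 : ψ ≠ φ) : ∃ s : V, φ s = 0 ∧ ψ s = 1 := by
  by_contra hc
  push Not at hc
  have hm : ψ ∈ Submodule.span (ZMod 2) {φ} := by
    refine mem_of_coann fun b hb => z_ne' (hc b ?_)
    exact hb φ (Submodule.mem_span_singleton_self φ)
  rcases span_one_mem.1 hm with h | h
  · exact h0 h
  · exact h1 h

theorem exists_one' {ψ : Dl V} (h0 : ψ ≠ 0) : ∃ s : V, ψ s = 1 := by
  by_contra hc
  push Not at hc
  exact h0 (LinearMap.ext fun a => z_ne' (hc a))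

/-- the dependent case: `x 0 = x 1`, and `x 0, x 2, h` are independent -/
structure Dp (h : Dl V) (x : Fin 3 → Dl V) : Prop where
  eq : x 0 = x 1
  ind : ∀ c c' d : ZMod 2, c • x 0 + c' • x 2 + d • h = 0 → c = 0 ∧ c' = 0

theorem Dp.p01 (D : Dp h x) : Dp h (x ∘ Equiv.swap (0 : Fin 3) 1) where
  eq := D.eq.symm
  ind := by
    intro c c' d hc
    have h1 : c • x 1 + c' • x 2 + d • h = 0 := hc
    rw [← D.eq] at h1
    exact D.ind c c' d h1

theorem Ns.k0 (N : Ns e A p a h x F G) (D : Dp h x) : x 0 e = 0 := by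
  have h1 := N.xp (i := 0) (j := 1) (by decide)
  have h2 := N.xpi 1
  rw [← D.eq, h1] at h2
  exact h2

theorem Ns.k1 (N : Ns e A p a h x F G) (D : Dp h x) : x 1 e = 0 := by
  rw [← D.eq]; exact N.k0 D

theorem Ns.x0p (N : Ns e A p a h x F G) (D : Dp h x) (j : Fin 3) (y : V) :
    x 0 (y + p j) = x 0 y := by
  rw [map_add]
  by_cases hj : j = 0
  · subst hj; rw [N.xpi, add_zero]
  · rw [N.xp hj, N.k0 D, add_zero]

theorem Ns.zz0 (N : Ns e A p a h x F G) (D : Dp h x) (y : V) :
    zz e h x G 0 y = x 0 + x 0 y • h := by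
  unfold zz
  rw [N.k0 D, zero_smul, add_zero, add_zero]

theorem Ns.zz1 (N : Ns e A p a h x F G) (D : Dp h x) (y : V) :
    zz e h x G 1 y = zz e h x G 0 y := by
  rw [N.zz0 D]
  unfold zz
  rw [N.k1 D, ← D.eq, zero_smul, add_zero, add_zero]

theorem Ns.w0 (N : Ns e A p a h x F G) (D : Dp h x) (y : V) : zz e h x G 0 y ≠ 0 := by
  intro hz
  rw [N.zz0 D] at hz
  have h1 := D.ind 1 0 (x 0 y) (by rw [← hz]; simp)
  exact absurd h1.1 z10

/-- `z 2 = 0` implies `Φ 0 = Φ 2` -/
theorem Ns.w2a (N : Ns e A p a h x F G) (D : Dp h x) {y : V} (hy : h y = 1)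
    (hz : zz e h x G 2 y = 0) : Phi x F G 0 y = Phi x F G 2 y := by
  unfold zz at hz
  have hk : x 2 e = 1 := by
    rcases z01 (x 2 e) with hk | hk
    · rw [hk, zero_smul, add_zero, add_zero] at hz
      have h1 := D.ind 0 1 (x 2 y) (by rw [← hz]; simp)
      exact absurd h1.2 z10
    · exact hk
  rw [hk] at hz
  have hG' : G 2 y = x 2 + (x 2 y + 1) • h := by
    linear_combination (norm := (match_scalars <;> first | rfl |
      (ring_nf; try reduce_mod_char; try rfl))) (1 : ZMod 2) • hz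
  have hG : G 2 y = (F 2 + (x 2 y + 1) • G 2) (p 0) := by
    rw [hG', LinearMap.add_apply, LinearMap.smul_apply, N.nd.Fp, N.nd.Gp, if_neg (by decide),
      if_neg (by decide)]
  rcases N.lk hy (N.nd.memG 2) (A.add_mem (N.nd.memF 2) (A.smul_mem _ (N.nd.memG 2))) hG with
    h1 | ⟨-, h1⟩ | ⟨h1, -⟩ | ⟨-, h1⟩
  · exfalso
    rw [hG', N.nd.Gp, if_neg (by decide)] at h1
    have h2 := D.ind 0 1 (x 2 y) (by
      linear_combination (norm := (match_scalars <;> first | rfl |
        (ring_nf; try reduce_mod_char; try rfl))) (1 : ZMod 2) • h1)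
    exact absurd h2.2 z10
  · exfalso
    rw [hG'] at h1
    unfold ff at h1
    simp only [LinearMap.add_apply, LinearMap.smul_apply, N.nd.Gp, N.nd.Fp] at h1
    simp [← D.eq] at h1
    have h2 := D.ind 1 1 (x 0 y + x 2 y) (by
      linear_combination (norm := (match_scalars <;> first | rfl |
        (ring_nf; try reduce_mod_char; try rfl))) (1 : ZMod 2) • h1)
    exact absurd h2.1 z10
  · exact h1
  · exfalso
    rw [hG'] at h1
    unfold ff at h1
    simp only [LinearMap.add_apply, LinearMap.smul_apply, N.nd.Gp, N.nd.Fp] at h1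
    simp [← D.eq] at h1
    have h2 := D.ind 1 0 (x 0 y) (by
      linear_combination (norm := (match_scalars <;> first | rfl |
        (ring_nf; try reduce_mod_char; try rfl))) (1 : ZMod 2) • h1)
    exact absurd h2.1 z10

theorem Ns.w2b (N : Ns e A p a h x F G) (D : Dp h x) {y : V} (hy : h y = 1)
    (hz : zz e h x G 2 y = 0) : Phi x F G 1 y = Phi x F G 2 y :=
  (N.perm (Equiv.swap 0 1)).w2a D.p01 hy hz

theorem Ns.w2 (N : Ns e A p a h x F G) (D : Dp h x) {y : V} (hy : h y = 1) :
    zz e h x G 2 y ≠ 0 := by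
  intro hz
  have h1 := (N.w2a D hy hz).trans (N.w2b D hy hz).symm
  have hy' : h (y + p 0) = 1 := by rw [N.h_add]; exact hy
  have hz' : zz e h x G 2 (y + p 0) = 0 := by rw [N.zz_add]; exact hz
  have h3 := (N.w2a D hy' hz').trans (N.w2b D hy' hz').symm
  rw [N.phi_add, N.phi_add, if_pos rfl, if_neg (by decide), add_zero, ← h1, N.zz1 D] at h3
  have z1 : zz e h x G 0 y = 0 := by simpa using h3.symm
  exact N.w0 D y z1

/-- `z 2 = z 0` implies `Φ 1 = Φ 2` -/
theorem Ns.v2a (N : Ns e A p a h x F G) (D : Dp h x) {y : V} (hy : h y = 1)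
    (hz : zz e h x G 2 y = zz e h x G 0 y) : Phi x F G 1 y = Phi x F G 2 y := by
  rw [N.zz0 D] at hz
  unfold zz at hz
  have hk : x 2 e = 1 := by
    rcases z01 (x 2 e) with hk | hk
    · rw [hk, zero_smul, add_zero, add_zero] at hz
      have h1 := D.ind 1 1 (x 0 y + x 2 y) (by
        linear_combination (norm := (match_scalars <;> first | rfl |
          (ring_nf; try reduce_mod_char; try rfl))) (1 : ZMod 2) • hz)
      exact absurd h1.2 z10
    · exact hk
  rw [hk] at hz
  have hG' : G 2 y = x 0 + x 2 + (x 0 y + x 2 y + 1) • h := by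
    linear_combination (norm := (match_scalars <;> first | rfl |
      (ring_nf; try reduce_mod_char; try rfl))) (1 : ZMod 2) • hz
  have hG : G 2 y = (F 1 + F 2 + (x 0 y + x 2 y + 1) • G 2) (p 0) := by
    rw [hG']
    simp only [LinearMap.add_apply, LinearMap.smul_apply, N.nd.Gp, N.nd.Fp]
    simp [← D.eq]
  rcases N.lk hy (N.nd.memG 2) (A.add_mem (A.add_mem (N.nd.memF 1) (N.nd.memF 2))
    (A.smul_mem _ (N.nd.memG 2))) hG with h1 | ⟨-, h1⟩ | ⟨-, h1⟩ | ⟨h1, -⟩
  · exfalso
    rw [hG', N.nd.Gp, if_neg (by decide)] at h1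
    have h2 := D.ind 1 1 (x 0 y + x 2 y) (by
      linear_combination (norm := (match_scalars <;> first | rfl |
        (ring_nf; try reduce_mod_char; try rfl))) (1 : ZMod 2) • h1)
    exact absurd h2.2 z10
  · exfalso
    rw [hG'] at h1
    unfold ff at h1
    simp only [LinearMap.add_apply, LinearMap.smul_apply, N.nd.Gp, N.nd.Fp] at h1
    simp [← D.eq] at h1
    have h2 := D.ind 0 1 (x 2 y) (by
      linear_combination (norm := (match_scalars <;> first | rfl |
        (ring_nf; try reduce_mod_char; try rfl))) (1 : ZMod 2) • h1)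
    exact absurd h2.2 z10
  · exfalso
    rw [hG'] at h1
    unfold ff at h1
    simp only [LinearMap.add_apply, LinearMap.smul_apply, N.nd.Gp, N.nd.Fp] at h1
    simp [← D.eq] at h1
    have h2 := D.ind 1 0 (x 0 y) (by
      linear_combination (norm := (match_scalars <;> first | rfl |
        (ring_nf; try reduce_mod_char; try rfl))) (1 : ZMod 2) • h1)
    exact absurd h2.1 z10
  · exact h1

theorem Ns.v2b (N : Ns e A p a h x F G) (D : Dp h x) {y : V} (hy : h y = 1)
    (hz : zz e h x G 2 y = zz e h x G 0 y) : Phi x F G 0 y = Phi x F G 2 y :=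
  (N.perm (Equiv.swap 0 1)).v2a D.p01 hy (hz.trans (N.zz1 D y).symm)

theorem Ns.v2 (N : Ns e A p a h x F G) (D : Dp h x) {y : V} (hy : h y = 1) :
    zz e h x G 2 y ≠ zz e h x G 0 y := by
  intro hz
  have h1 := (N.v2b D hy hz).trans (N.v2a D hy hz).symm
  have hy' : h (y + p 0) = 1 := by rw [N.h_add]; exact hy
  have hz' : zz e h x G 2 (y + p 0) = zz e h x G 0 (y + p 0) := by
    rw [N.zz_add, N.zz_add]; exact hz
  have h3 := (N.v2b D hy' hz').trans (N.v2a D hy' hz').symm
  rw [N.phi_add, N.phi_add, if_pos rfl, if_neg (by decide), add_zero, ← h1, N.zz1 D] at h3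
  have z1 : zz e h x G 0 y = 0 := by simpa using h3.symm
  exact N.w0 D y z1

/-- `Φ 0 + Φ 1` is `0` or `z 0` -/
theorem Ns.s1 (N : Ns e A p a h x F G) (D : Dp h x) {y : V} (hy : h y = 1) :
    Phi x F G 0 y = Phi x F G 1 y ∨ Phi x F G 0 y = Phi x F G 1 y + zz e h x G 0 y := by
  have c := N.cc hy
  have c0 := N.cc' hy 0
  have c2 := N.cc' hy 2
  have hz0 := N.w0 D y
  have hz2 := N.w2 D hy
  have hz20 := N.v2 D hy
  simp only [Fin.isValue, if_true, reduceIte, add_zero, one_ne_zero, zero_ne_one,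
    Fin.reduceEq, N.zz1 D] at c0 c2
  generalize zz e h x G 0 y = z0 at *
  generalize zz e h x G 2 y = z2 at *
  generalize Phi x F G 0 y = P at *
  generalize Phi x F G 1 y = R at *
  generalize Phi x F G 2 y = Q at *
  have aa : ∀ u v : Dl V, u + v = u → v = 0 := fun u v h => by simpa using h
  have bb : ∀ u v : Dl V, u = u + v → v = 0 := fun u v h => by simpa using h.symm
  rcases c with c | c | c
  · exact Or.inl c
  · rw [← c] at c2
    rcases c2 with d | d | d
    · left; exact add_right_cancel d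
    · exact absurd (aa _ _ d) hz0
    · exact Or.inr d.symm
  · rw [← c] at c2
    rcases c2 with d | d | d
    · left; exact add_right_cancel d
    · right
      rw [← d]
      linear_combination (norm := (match_scalars <;> first | rfl |
        (ring_nf; try reduce_mod_char; try rfl))) (0 : ZMod 2) • (rfl : h = h)
    · exact absurd (aa _ _ d) hz0

/-- the value of `Φ 2` -/
theorem Ns.s2 (N : Ns e A p a h x F G) (D : Dp h x) {y : V} (hy : h y = 1)
    (h01 : Phi x F G 0 y = Phi x F G 1 y) :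
    Phi x F G 2 y = Phi x F G 0 y + zz e h x G 2 y ∨
      Phi x F G 2 y = Phi x F G 0 y + zz e h x G 0 y + zz e h x G 2 y := by
  have c0 := N.cc' hy 0
  have hz0 := N.w0 D y
  simp only [Fin.isValue, if_true, reduceIte, add_zero, one_ne_zero, zero_ne_one,
    Fin.reduceEq, N.zz1 D] at c0
  rw [← h01] at c0
  rcases c0 with c | c | c
  · exact absurd (by simpa using c.symm) hz0
  · left
    linear_combination (norm := (match_scalars <;> first | rfl |
      (ring_nf; try reduce_mod_char; try rfl))) (1 : ZMod 2) • c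
  · right
    linear_combination (norm := (match_scalars <;> first | rfl |
      (ring_nf; try reduce_mod_char; try rfl))) (1 : ZMod 2) • c

/-- a normalised point -/
theorem Ns.s3 (N : Ns e A p a h x F G) (D : Dp h x) {y : V} (hy : h y = 1) :
    ∃ y', h y' = 1 ∧ x 0 y' = x 0 y ∧ Phi x F G 0 y' = Phi x F G 1 y' ∧
      Phi x F G 2 y' = Phi x F G 0 y' + zz e h x G 2 y' := by
  have step : ∀ y, h y = 1 → Phi x F G 0 y = Phi x F G 1 y → ∃ y', h y' = 1 ∧ x 0 y' = x 0 y ∧
      Phi x F G 0 y' = Phi x F G 1 y' ∧ Phi x F G 2 y' = Phi x F G 0 y' + zz e h x G 2 y' := by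
    intro y hy h01
    rcases N.s2 D hy h01 with h2 | h2
    · exact ⟨y, hy, rfl, h01, h2⟩
    · refine ⟨y + p 2, by rw [N.h_add]; exact hy, N.x0p D _ _, ?_, ?_⟩
      · rw [N.phi_add, N.phi_add, if_neg (by decide), if_neg (by decide), h01, N.zz1 D]
      · rw [N.phi_add, N.phi_add, if_pos rfl, if_neg (by decide), N.zz_add, add_zero, h2]
  rcases N.s1 D hy with h1 | h1
  · exact step y hy h1
  · obtain ⟨y', h2, h3, h4⟩ := step (y + p 0) (by rw [N.h_add]; exact hy) (by
      rw [N.phi_add, N.phi_add, if_pos rfl, if_neg (by decide), add_zero, N.zz1 D, h1])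
    exact ⟨y', h2, h3.trans (N.x0p D _ _), h4⟩

/-- the members killing a normalised point -/
theorem Ns.s4 (N : Ns e A p a h x F G) {y : V} (hy : h y = 1)
    (h1 : Phi x F G 0 y ≠ Phi x F G 2 y) (h2 : Phi x F G 1 y ≠ Phi x F G 2 y) {ω : Frm V}
    (hω : ω ∈ A) (h0 : ω y = 0) : ω = 0 ∨ ω = ff x F G 0 1 y := by
  rcases N.l0 hy hω h0 with h3 | h3 | h3 | h3
  · exact Or.inl h3
  · exact Or.inr h3.1
  · exact absurd h3.2 h1
  · exact absurd h3.2 h2

theorem Ns.ff01 (N : Ns e A p a h x F G) (D : Dp h x) {j : Fin 3} (hj : j = 0 ∨ j = 1) (y : V) :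
    ff x F G 0 1 y (p j) = x 0 + x 0 y • h := by
  unfold ff
  simp only [LinearMap.add_apply, LinearMap.smul_apply, N.nd.Gp, N.nd.Fp]
  rcases hj with rfl | rfl <;> simp [← D.eq]

/-- two normalised points `y, y'` (possibly moved) with different values of `x 0` -/
theorem Ns.s5 (N : Ns e A p a h x F G) (D : Dp h x) {y y' : V} (hy : h y = 1) (hy' : h y' = 1)
    (h1 : Phi x F G 0 y ≠ Phi x F G 2 y) (h2 : Phi x F G 1 y ≠ Phi x F G 2 y)
    (h1' : Phi x F G 0 y' ≠ Phi x F G 2 y') (h2' : Phi x F G 1 y' ≠ Phi x F G 2 y')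
    (hx : x 0 y' = x 0 y + 1) {j : Fin 3} (hj : j = 0 ∨ j = 1) {ω : Frm V} (hω : ω ∈ A)
    (hv : ω (y + y') = G j y) : False := by
  obtain ⟨ζ, hζ, h3, h4⟩ := N.li (G j) (N.nd.memG j) ω hω y (y + y') hv.symm
  have h5 : ζ y' = 0 := by
    rw [map_add, h3] at h4
    simpa using h4
  have h6 : (ζ + G j) y = 0 := by rw [LinearMap.add_apply, h3, vadd]
  have hGj : G j (p j) = 0 := by rw [N.nd.Gp, if_pos rfl]
  have hne : ∀ y, ff x F G 0 1 y ≠ G j := by
    intro y hcon
    have h7 := N.ff01 D hj y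
    rw [hcon, hGj] at h7
    have h8 := D.ind 1 0 (x 0 y) (by rw [h7]; simp)
    exact absurd h8.1 z10
  have hG0 : G j ≠ 0 := by
    intro hcon
    have h7 : G j (p 2) = 0 := by rw [hcon]; rfl
    rw [N.nd.Gp, if_neg (by rcases hj with rfl | rfl <;> decide)] at h7
    exact N.h0 h7
  rcases N.s4 hy' h1' h2' hζ h5 with h7 | h7 <;>
    rcases N.s4 hy h1 h2 (A.add_mem hζ (N.nd.memG j)) h6 with h8 | h8
  · rw [h7, zero_add] at h8
    exact hG0 h8
  · rw [h7, zero_add] at h8
    exact hne y h8.symm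
  · rw [h7] at h8
    exact hne y' (aez.1 h8)
  · rw [h7] at h8
    have h9 : ff x F G 0 1 y' (p j) + G j (p j) = ff x F G 0 1 y (p j) := by
      rw [← h8]; rfl
    rw [hGj, N.ff01 D hj, N.ff01 D hj, hx] at h9
    apply N.h0
    linear_combination (norm := (match_scalars <;> first | rfl |
      (ring_nf; try reduce_mod_char; try rfl))) (1 : ZMod 2) • h9

/-- the dependent case is impossible -/
theorem Ns.no2 [Finite V] (N : Ns e A p a h x F G) (D : Dp h x) : False := by
  have hx0 : x 0 ≠ 0 := by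
    intro hcon
    exact absurd (D.ind 1 0 0 (by rw [hcon]; simp)).1 z10
  have hxh : x 0 ≠ h := by
    intro hcon
    exact absurd (D.ind 1 0 1 (by rw [hcon]; simp [vadd])).1 z10
  obtain ⟨s, hs1, hs2⟩ := exists_sep' hx0 hxh
  obtain ⟨t, ht⟩ := exists_one' N.h0
  obtain ⟨y, hy, -, ha, hb⟩ := N.s3 D ht
  obtain ⟨y', hy', hx, ha', hb'⟩ := N.s3 D (y := y + s) (by rw [map_add, hy, hs1, add_zero])
  rw [map_add, hs2] at hx
  have hw := N.w2 D hy
  have hw' := N.w2 D hy'
  have hv := N.v2 D hy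
  have hv' := N.v2 D hy'
  have cc : ∀ u v : Dl V, u = u + v → v = 0 := fun u v h => by simpa using h.symm
  have n1 : Phi x F G 0 y ≠ Phi x F G 2 y := fun h => hw (cc _ _ (h.trans hb))
  have n2 : Phi x F G 1 y ≠ Phi x F G 2 y := fun h => n1 (ha.trans h)
  have n1' : Phi x F G 0 y' ≠ Phi x F G 2 y' := fun h => hw' (cc _ _ (h.trans hb'))
  have n2' : Phi x F G 1 y' ≠ Phi x F G 2 y' := fun h => n1' (ha'.trans h)
  have hm : ff x F G 0 2 y' + x 2 e • G 2 ∈ A :=
    A.add_mem (A.add_mem (A.add_mem (A.add_mem (N.nd.memF 0) (N.nd.memF 2))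
      (A.smul_mem _ (N.nd.memG 0))) (A.smul_mem _ (N.nd.memG 2))) (A.smul_mem _ (N.nd.memG 2))
  have hval : (ff x F G 0 2 y' + x 2 e • G 2) (y + y') =
      (x 2 y + x 2 y') • h + G 0 y + (x 2 y + x 2 y') • G 2 y := by
    unfold ff
    unfold Phi zz at hb hb'
    simp only [LinearMap.add_apply, LinearMap.smul_apply, map_add]
    rw [hx]
    rw [hx] at hb'
    linear_combination (norm := (match_scalars <;> first | rfl |
      (ring_nf; try reduce_mod_char; try rfl))) (1 : ZMod 2) • hb + (1 : ZMod 2) • hb'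
  rcases z01 (x 2 y + x 2 y') with h0 | h0
  · rw [h0, zero_smul, zero_smul, zero_add, add_zero] at hval
    exact N.s5 D hy hy' n1 n2 n1' n2' hx (Or.inl rfl) hm hval
  · rw [h0, one_smul, one_smul] at hval
    have hg : G 0 y + G 1 y + G 2 y = 0 := LinearMap.congr_fun N.nd.Gsum y
    have hy2 : h (y + p 2) = 1 := by rw [N.h_add]; exact hy
    have hy2' : h (y' + p 2) = 1 := by rw [N.h_add]; exact hy'
    have cancel : ∀ u v w : Dl V, u + v = u + w → v = w := fun u v w h => add_left_cancel h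
    have m : ∀ y, h y = 1 → Phi x F G 0 y = Phi x F G 1 y →
        Phi x F G 2 y = Phi x F G 0 y + zz e h x G 2 y →
        Phi x F G 0 (y + p 2) ≠ Phi x F G 2 (y + p 2) ∧
          Phi x F G 1 (y + p 2) ≠ Phi x F G 2 (y + p 2) := by
      intro y hy ha hb
      rw [N.phi_add, N.phi_add, N.phi_add, if_neg (by decide), if_pos rfl, if_neg (by decide),
        add_zero, N.zz1 D, ← ha, hb]
      exact ⟨fun h => N.v2 D hy (cancel _ _ _ h).symm, fun h => N.v2 D hy (cancel _ _ _ h).symm⟩
    refine N.s5 D hy2 hy2' (m y hy ha hb).1 (m y hy ha hb).2 (m y' hy' ha' hb').1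
      (m y' hy' ha' hb').2 (by rw [N.x0p D, N.x0p D]; exact hx) (j := 1) (Or.inr rfl) hm ?_
    have e1 : y + p 2 + (y' + p 2) = y + y' := by
      have : y + p 2 + (y' + p 2) = y + y' + (p 2 + p 2) := by abel
      rw [this, vadd, add_zero]
    rw [e1, hval, map_add, N.nd.Gp, if_neg (by decide)]
    linear_combination (norm := (match_scalars <;> first | rfl |
      (ring_nf; try reduce_mod_char; try rfl))) (1 : ZMod 2) • hg

end

end Pool.Agent.H89M5
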