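import Pool.Agent.H89FL.Step

set_option autoImplicit false
set_option linter.unusedSectionVars false

/-!
Project M5: linked families of at most 32 forms are hereditarily linked (so `|K₂(F)/2| ≤ 32`
implies elementary type).  `V` is a vector space over `F₂`, `Dl V` its dual, `Frm V` the bilinear
forms `V → Dl V`, `Fam V` the subspaces of `Frm V`; `Linked A`: if `ω a = η c` for members then some
member `ζ` has `ζ a = ζ c = ω a`.  Everything is of exponent two (`vadd : x + x = 0`,
`Pool.Agent.H89FL.aez : v + w = 0 ↔ v = w`).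
-/

namespace Pool.Agent.H89M5

open Module Pool.Agent.W622.ETG

/-- points `e` and functionals `l` of a three-dimensional space -/
abbrev P3 : Type := ZMod 2 × ZMod 2 × ZMod 2

/-- the value of the functional `l` at the point `e` -/
def dt (l e : P3) : ZMod 2 := l.1 * e.1 + l.2.1 * e.2.1 + l.2.2 * e.2.2

section
variable {V : Type} [AddCommGroup V] [Module (ZMod 2) V]

/-- the functional `f` is a value at `p` -/
def Iv (A : Fam V) (p : V) (f : Dl V) : Prop := ∃ ω ∈ A, ω p = f

/-- the point of `⟨v0,v1,v2⟩` with coordinates `e` -/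
def io (v0 v1 v2 : V) (e : P3) : V := e.1 • v0 + e.2.1 • v1 + e.2.2 • v2

/-- restriction of forms to `⟨v0,v1,v2⟩` -/
def rE (v0 v1 v2 : V) : Frm V →ₗ[ZMod 2] Dl V × Dl V × Dl V :=
  (LinearMap.applyₗ v0).prod ((LinearMap.applyₗ v1).prod (LinearMap.applyₗ v2))

/-- Configurations.  Write `t_l` for the function `e ↦ dt l e • y l`.  All sums `t_l + t_m` are
restrictions of members of `A`, no `t_l` is. -/
structure Cf (A : Fam V) (v0 v1 v2 : V) (y : P3 → Dl V) : Prop where
  mem : ∀ l m : P3, l ≠ 0 → m ≠ 0 →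
    ∃ ω ∈ A, ∀ e, ω (io v0 v1 v2 e) = dt l e • y l + dt m e • y m
  bad : ∀ l : P3, l ≠ 0 → ∀ ω ∈ A, ∃ e, ω (io v0 v1 v2 e) ≠ dt l e • y l

/-- The relation with coefficients `c` between the `t_l` -/
def Rl (y : P3 → Dl V) (c : P3 → ZMod 2) : Prop := ∀ e : P3, ∑ l, (c l * dt l e) • y l = 0

/-- Normal form of the configurations with a relation: three points `p i` of a plane
(`p 0 + p 1 + p 2 = 0`) and a point `a`; members `F i : p i ↦ 0, p j ↦ x i (j ≠ i), a ↦ h` and
`G i : p i ↦ 0, p j ↦ h (j ≠ i), a ↦ 0`; no member maps `p j ↦ 0, a ↦ h`. -/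
structure Nd (A : Fam V) (p : Fin 3 → V) (a : V) (h : Dl V) (x : Fin 3 → Dl V)
    (F G : Fin 3 → Frm V) : Prop where
  psum : p 0 + p 1 + p 2 = 0
  memF : ∀ i, F i ∈ A
  memG : ∀ i, G i ∈ A
  Gsum : G 0 + G 1 + G 2 = 0
  Fa : ∀ i, F i a = h
  Ga : ∀ i, G i a = 0
  Fp : ∀ i j, F i (p j) = if j = i then 0 else x i
  Gp : ∀ i j, G i (p j) = if j = i then 0 else h
  bad : ∀ ω ∈ A, ω (p 0) = 0 → ω (p 1) = 0 → ω a ≠ h

/-- the members of `A` are combinations of the `F i` and `G i` on `⟨p 0, p 1, a⟩` -/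
def Gen (A : Fam V) (p : Fin 3 → V) (a : V) (F G : Fin 3 → Frm V) : Prop :=
  ∀ ω ∈ A, ∃ c d : Fin 3 → ZMod 2, ω a = (∑ i, (c i • F i + d i • G i)) a ∧
    ∀ j, ω (p j) = (∑ i, (c i • F i + d i • G i)) (p j)

end

/-- **SP**. Five linearly independent elements span a subspace of dimension at most five.
Proof: `b` gives a family `Fin 5 → M`, `LinearIndependent` (use `Fintype.linearIndependent_iff`);
`5 ≤ finrank M` by `LinearIndependent.fintype_card_le_finrank`, so the span is `⊤`
(`LinearIndependent.span_eq_top_of_card_eq_finrank'`), then `Submodule.mem_span_range_iff_exists_fun`. -/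
def S_SP : Prop := ∀ (X : Type) [AddCommGroup X] [Module (ZMod 2) X] (M : Submodule (ZMod 2) X),
  Finite M → finrank (ZMod 2) M ≤ 5 → ∀ b : Fin 5 → X, (∀ i, b i ∈ M) →
  (∀ c : Fin 5 → ZMod 2, ∑ i, c i • b i = 0 → c = 0) → ∀ m ∈ M, ∃ c : Fin 5 → ZMod 2,
    m = ∑ i, c i • b i

/-- **CF**. A value `h` at `v0, v1, v2, v0 + v1 + v2` which is not a common value of a member gives a
configuration.
Proof: let `f e = dt (1,1,1) e • h` (so `f` is `h` at the four points with `dt (1,1,1) e = 1` and `0`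
at the others) and `y (1,1,1) = h`.  For the six other `l ≠ 0` there are two points `e, e'` (by
`decide`) with `dt l e = dt l e' = 0`, `dt (1,1,1) e = dt (1,1,1) e' = 1`, `e ≠ e'`; by linkage some
member `ω_l` has the value `h` at both, so `ω_l = f` at `e, e', e + e', 0`, the kernel of `l`.  Put
`y l = ω_l (e'') + f e''` for a point `e''` with `dt l e'' = 1` (fixed for each `l`); by additivity
`ω_l (e) = f e + dt l e • y l` for all `e` (this also holds for `l = (1,1,1)` with `ω_l = 0`).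
`mem`: take `ω_l + ω_m`.  `bad`: if `ω e = dt l e • y l` for all `e` then `ω + ω_l = f`, so this member
has the value `h` at `v0, v1, v2`, against the hypothesis.  (It may be convenient to prove first a
lemma: for every `l ≠ 0` there are `y_l` and `ω_l ∈ A` with `ω_l (io e) = dt (1,1,1) e • h + dt l e •
y_l` for all `e`, by the seven cases `l`, and then to choose.) -/
def S_CF : Prop := ∀ (V : Type) [AddCommGroup V] [Module (ZMod 2) V] (A : Fam V), Linked A →
  ∀ (v0 v1 v2 : V) (h : Dl V), Iv A v0 h → Iv A v1 h → Iv A v2 h → Iv A (v0 + v1 + v2) h →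
  (¬ ∃ ω ∈ A, ω v0 = h ∧ ω v1 = h ∧ ω v2 = h) → ∃ y : P3 → Dl V, Cf A v0 v1 v2 y

/-- **REL**. If the restrictions form a space of dimension at most five there is a nontrivial
relation between the seven `t_l`, `l ≠ 0`.
Proof: let `M = A.map (rE v0 v1 v2)` and `T l = (dt l e1 • y l, dt l e2 • y l, dt l e3 • y l)` with
the unit vectors `e1 = (1,0,0)`, ...  By `mem` with `m = (1,0,0)` all `T l`, `l ≠ 0`, are in
`N = M ⊔ span {T (1,0,0)}`, and `finrank N ≤ 6`.  So the seven vectors `T l` are dependent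
(`LinearIndependent.fintype_card_le_finrank`, `Fintype.not_linearIndependent_iff`): `c`, extended by
`c 0 = 0`.  The relation at `e` is the combination of the three coordinates with coefficients `e`. -/
def S_REL : Prop := ∀ (V : Type) [AddCommGroup V] [Module (ZMod 2) V] [Finite V] (A : Fam V)
  (v0 v1 v2 : V) (y : P3 → Dl V), Cf A v0 v1 v2 y →
  finrank (ZMod 2) (A.map (rE v0 v1 v2)) ≤ 5 → ∃ c : P3 → ZMod 2, c 0 = 0 ∧ c ≠ 0 ∧ Rl y c

/-- **CLS**. Classification of the relations: either `c l = dt l e0` for some `e0 ≠ 0`, or `c` is one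
at all `l ≠ 0` except one `l0`.
Proof: `y l ≠ 0` for `l ≠ 0` (`bad` with `ω = 0`).  If `∑ c l = 1` (an odd number of terms) then
`t_m` for a suitable `m` (with `c m = 1`) is a sum of pairs `t_l + t_l'`, against `bad` (e.g. by: for
every `c` with `c 0 = 0` there is `ω ∈ A` with `ω (io e) = ∑ l, (c l * dt l e) • y l + (∑ l, c l) •
(dt m e • y m)`, as both sides are additive in `c`; then `Rl y c` gives `ω (io e) = dt m e • y m`).
If there are `e`, `l` with `c l = 1`, `dt l e = 1` and `c m * dt m e = 0` for `m ≠ l` then the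
relation at `e` is `y l = 0`, impossible.  The finite statement: every `c : P3 → ZMod 2` with
`c 0 = 0`, `c ≠ 0` has odd sum, or such a pair `e, l`, or is one of the two types (`decide`, possibly
after writing `c` as seven variables in `ZMod 2`; checked by computer). -/
def S_CLS : Prop := ∀ (V : Type) [AddCommGroup V] [Module (ZMod 2) V] (A : Fam V)
  (v0 v1 v2 : V) (y : P3 → Dl V), Cf A v0 v1 v2 y → ∀ c : P3 → ZMod 2, c 0 = 0 → c ≠ 0 → Rl y c →
  (∃ e0 : P3, e0 ≠ 0 ∧ ∀ l, c l = dt l e0) ∨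
    (∃ l0 : P3, l0 ≠ 0 ∧ ∀ l, l ≠ 0 → c l = if l = l0 then 0 else 1)

/-- **AL**. A relation of the first type means that `y` is constant on `{l | dt l e0 = 1}`.
Proof: for `l ≠ m` with `dt l e0 = dt m e0 = 1` there is `e` (`decide`) with `dt l e = dt m e = 1`
and `dt k e * dt k e0 = 0` for the other `k`; the relation at `e` is `y l + y m = 0`. -/
def S_AL : Prop := ∀ (V : Type) [AddCommGroup V] [Module (ZMod 2) V] (y : P3 → Dl V) (e0 : P3),
  Rl y (fun l => dt l e0) → ∀ l m : P3, dt l e0 = 1 → dt m e0 = 1 → y l = y m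

/-- **BETA**. A relation of the second type gives also one of the first type.
Proof: choose (`decide`) a basis `e1, e2, e3` with dual basis `l1, l2, l0` (so `dt l1 e1 = 1`,
`dt l1 e2 = dt l1 e3 = 0`, ..., `dt l0 e3 = 1`).  Let `h = y l0`, `x1 = y l2`, `x2 = y l1`,
`x3 = y (l1 + l2)`.  The relation at `e1`, `e2`, `e3` gives `y (l2 + l0) = x2 + x3`, `y (l1 + l0) =
x1 + x3`, `y (l1 + l2 + l0) = x1 + x2`.  By `mem` (sums with `t_{l0}`) there are members with values
(at `io e1, io e2, io e3`)  `F1 = (0, x1, h)`, `F2 = (x2, 0, h)`, `F3 = (x3, x3, h)`,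
`G1 = (0, x2 + x3, h + x2 + x3)`, `G2 = (x1 + x3, 0, h + x1 + x3)`.
(i) If `c1 F1 + c2 F2 + c3 F3 + d1 G1 + d2 G2` vanishes at the three points with coefficients not all
zero, we get a nonzero relation `c'` between the `t_l` with `c' (l1 + l2 + l0) = 0`: `c' l2 = c1`,
`c' l1 = c2`, `c' (l1 + l2) = c3`, `c' (l2 + l0) = d1`, `c' (l1 + l0) = d2`, `c' l0 = c1 + c2 + c3 +
d1 + d2`.  By CLS it is of the first type (done), or of the second type for `l0' = l1 + l2 + l0`;
then `c + c'` is the relation `t_{l0} + t_{l0'} = 0` (of neither type, or at `e1`: `y l0' = 0`),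
impossible by CLS.
(ii) Otherwise SP (with `M = A.map (rE ..)`) shows that every member is a combination of the five at
the three points.  By linkage for `x1` (a value of `F1` at `io e2` and of `G2 + F3` at `io e1`) some
member `ζ` has `ζ (io e1) = ζ (io e2) = x1`, so `c2 x2 + c3 x3 + d2 (x1 + x3) = x1` and
`c1 x1 + c3 x3 + d1 (x2 + x3) = x1`.  As `x1, x2, x3, x1 + x2, x1 + x3, x2 + x3` are nonzero, the first
equation forces `c3 = 1` and the second `c3 = 0` (32 cases), a contradiction. -/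
def S_BETA : Prop := S_SP → S_CLS → ∀ (V : Type) [AddCommGroup V] [Module (ZMod 2) V] [Finite V]
  (A : Fam V) (v0 v1 v2 : V) (y : P3 → Dl V), Linked A → Cf A v0 v1 v2 y →
  finrank (ZMod 2) (A.map (rE v0 v1 v2)) ≤ 5 → ∀ c : P3 → ZMod 2, c 0 = 0 → Rl y c →
  ∀ l0 : P3, l0 ≠ 0 → (∀ l, l ≠ 0 → c l = if l = l0 then 0 else 1) →
  ∃ e0 : P3, e0 ≠ 0 ∧ Rl y (fun l => dt l e0)

/-- **NF**. The normal form.
Proof: choose (`decide`) a basis `e1, e2, e0` with dual basis `l1, l2, l0`; put `p 0 = io e1`,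
`p 1 = io e2`, `p 2 = io (e1 + e2)`, `a = io e0`, `h = y l0` (the common value of `y` at the `l` with
`dt l e0 = 1`), and `μ 0 = l2`, `μ 1 = l1`, `μ 2 = l1 + l2`, `x i = y (μ i)`.  `F i`: the member of
`mem` for `l0, μ i`.  `G 0`, `G 1`: the members of `mem` for `l0`, `l0 + μ i` (both values `h`), and
`G 2 = G 0 + G 1`.  `bad` is `bad` for `l0`.  `x i ∉ {0, h}` (else `F i` or `F i + G i` is against
`bad`), `h ≠ 0`.
Gen: by SP with `F 0, F 1, F 2, G 0, G 1`: if `∑ c i F i + d0 G 0 + d1 G 1` vanishes at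
`io e1, io e2, io e0` then `c1 x1 + c2 x2 + d1 h = 0`, `c0 x0 + c2 x2 + d0 h = 0`,
`(c0 + c1 + c2) h = 0`; as the `x i` are not in `{0, h}`, `c1 = c2` and `c0 = c2`, so all are zero
(sum zero), then `d0 = d1 = 0`. (`(v0,v1,v2)` and `(p 0, p 1, a)` span the same space: a member is
determined on one by its values on the other.) -/
def S_NF : Prop := S_SP → ∀ (V : Type) [AddCommGroup V] [Module (ZMod 2) V] [Finite V]
  (A : Fam V) (v0 v1 v2 : V) (y : P3 → Dl V), Cf A v0 v1 v2 y →
  finrank (ZMod 2) (A.map (rE v0 v1 v2)) ≤ 5 →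
  ∀ e0 : P3, e0 ≠ 0 → (∀ l m : P3, dt l e0 = 1 → dt m e0 = 1 → y l = y m) →
  ∃ (p : Fin 3 → V) (a : V) (h : Dl V) (x : Fin 3 → Dl V) (F G : Fin 3 → Frm V),
    Nd A p a h x F G ∧ Gen A p a F G ∧ a = io v0 v1 v2 e0 ∧ h ≠ 0

end Pool.Agent.H89M5
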